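import Pool.Agent.H71.AJW.Rel

/-!
# All jets of the own path of a nonfull coordinate, the value known for the labels of a family

`path_rb`: `path_ra` of `H71/AJW/Rel`, with the value of the own path few bits for the labels of the
family `Ψ` only.
-/

set_option autoImplicit false

namespace Pool.AJW

open Finset Real MvPolynomial
open Pool.Agent.H49.Ent Pool.Agent.H32.Dense Pool.STK Pool.KA Pool.KSAT Pool.K2S Pool.PB Pool.GEN
open Pool.S6C Pool.RCD Pool.LA91 Pool.OWN68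
open Pool.GRD (LbP)

variable {J : ℕ}

/-- **All jets of the own path of a nonfull coordinate are few bits given the ball**, relative to a
quantity, for the labels of a family. -/
theorem path_rb (K : ℕ) {h : ℝ} (hh : 0 < h) (hh1 : h ≤ 1) {ε : ℝ}
    (hε : 0 < ε) : ∃ δ : ℝ, 0 < δ ∧ ∃ N₀ : ℕ, 0 < N₀ ∧
    ∀ {m : ℕ} {S : PCl m} {C₀ : ℝ} (_ : TmC S C₀) {I : Finset (Fin m)} {κ : Fin m} {w a p q r : ℝ} (_ : 0 ≤ w) (_ : w ≤ a) (_ : a ≤ 1)
    (_ : 0 < q) (_ : w + q ≤ 1) (_ : 0 ≤ r)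
    {U₀ : Type} {Qu : Qt m U₀}
    {α γ : ∀ J : ℕ, Fam m J → Type} {f : ∀ (J : ℕ) (F : Fam m J), F.Ω → α J F}
    {y : ∀ (J : ℕ) (F : Fam m J), F.Ω → γ J F}
    (_ : ∀ (J : ℕ) (F : Fam m J), ∃ φ : α J F → PtT F, ∀ ω, ptr F J ω = φ (f J F ω))
    (_ : ∀ (J : ℕ) (F : Fam m J), ∃ φ : γ J F → ℕ, ∀ ω, F.T ω = φ (y J F ω))
    {e : ℝ} (_ : 0 < e)
    (Ψ : ∀ (J : ℕ) (F : Fam m J), (F.Ω → Prop) → ∀ V C : Type, (PtT F → V) → (LnT F → V) →
      (V → MvPolynomial (Option (Fin m)) ℝ) → (LnT F → C) → Prop)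
    (_ : ∀ (J : ℕ) (F : Fam m J) (A : F.Ω → Prop) (V C : Type) (z : PtT F → V) (z' : LnT F → V)
      (G : V → MvPolynomial (Option (Fin m)) ℝ) (c : LnT F → C), Ψ J F A V C z z' G c →
      LbOK F I κ K ⌊e * J⌋₊ J ⌊w * J⌋₊ ⌊(r + e) * J⌋₊ ⌊(p - e) * J⌋₊ A z z' G)
    (_ : ∀ (J : ℕ) (F : Fam m J) (A B : F.Ω → Prop) (V C : Type) (z : PtT F → V)
      (z' : LnT F → V) (G : V → MvPolynomial (Option (Fin m)) ℝ) (c : LnT F → C), Sub B A →
      Ψ J F A V C z z' G c → Ψ J F B V C z z' G c),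
    (∀ K₀ : ℕ, Bas S (fun J F A => ∀ (V C : Type) (z : PtT F → V) (z' : LnT F → V)
      (G : V → MvPolynomial (Option (Fin m)) ℝ) (c : LnT F → C), Ψ J F A V C z z' G c →
      ∀ u₀ : F.Ω → U₀, Qu.P K₀ e J F A u₀ →
      ∃ (V₁ : Type) (z₁ : F.Ω → V₁), Cl2 (f J F) (vg a J F) A z₁ ∧
      CH (Pool.Agent.H49.Ent.cond F.p A True) (fun ω => c (vg w J F ω))
        (fun ω => (u₀ ω, (z₁ ω, y J F ω))) ≤ δ * q * J)) →
    (∀ i ≤ N₀, ∀ x : ℝ, 0 ≤ x → x ≤ q - q * i / N₀ →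
      Bas S (fun J F A => ∀ (V C : Type) (z : PtT F → V)
      (z' : LnT F → V) (G : V → MvPolynomial (Option (Fin m)) ℝ) (c : LnT F → C),
      Ψ J F A V C z z' G c →
      CH (Pool.Agent.H49.Ent.cond F.p A True)
        (fun ω => ⌊(2 : ℝ) ^ ((p + (q - q * i / N₀)) * J) *
          ojet F κ 0 (G (z' (slam F ⌊w * J⌋₊ ω))) ω⌋)
        (fun ω => (⌊(2 : ℝ) ^ ((p + x) * J) * ojet F κ 0 (G (z' (slam F ⌊w * J⌋₊ ω))) ω⌋,
          (z' (slam F ⌊w * J⌋₊ ω), (c (slam F ⌊w * J⌋₊ ω), F.W ω)))) ≤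
        ((1 - h) * ((q - q * i / N₀) - x) * Real.log 2 + δ * q) * J)) →
    (∀ K₀ : ℕ, Bas S (fun J F A => ∀ (V C : Type) (z : PtT F → V) (z' : LnT F → V)
      (G : V → MvPolynomial (Option (Fin m)) ℝ) (c : LnT F → C), Ψ J F A V C z z' G c →
      ∀ u₀ : F.Ω → U₀, Qu.P K₀ e J F A u₀ →
      ∃ (V₁ : Type) (z₁ : F.Ω → V₁), Cl2 (f J F) (vg a J F) A z₁ ∧
      CH (Pool.Agent.H49.Ent.cond F.p A True)
        (fun ω => ⌊(2 : ℝ) ^ ((p + q) * J) * ojet F κ 0 (G (z' (slam F ⌊w * J⌋₊ ω))) ω⌋)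
        (fun ω => (u₀ ω, (z₁ ω, y J F ω))) ≤ δ * q * J)) →
    (∀ j < K + 3, j ≠ 0 → F1 S f (vg a) y Qu (qJet m I κ j w p (p - j * w)) e (δ * q)) →
    ∀ K₀ : ℕ, Bas S (fun J F A => ∀ (V C : Type) (z : PtT F → V) (z' : LnT F → V)
        (G : V → MvPolynomial (Option (Fin m)) ℝ) (c : LnT F → C), Ψ J F A V C z z' G c →
        ∀ u₀ : F.Ω → U₀, Qu.P K₀ e J F A u₀ →
        ∃ (V₁ : Type) (z₁ : F.Ω → V₁), Cl2 (f J F) (vg a J F) A z₁ ∧
          CH (Pool.Agent.H49.Ent.cond F.p A True)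
            (fun ω => ((z' (vg w J F ω), (vg w J F ω).2), (c (vg w J F ω),
              fun j : Fin (K + 3) => ⌊jr F ⌊w * J⌋₊ (2 ^ ((p + q) * J)) κ z' G j (vg w J F ω)⌋)))
            (fun ω => (u₀ ω, (z₁ ω, y J F ω))) ≤ ε * q * J) := by
  classical
  obtain ⟨D, hD⟩ : ∃ D : ℕ, D = K + 2 := ⟨_, rfl⟩
  have hD1 : 1 ≤ D := by omega
  obtain ⟨ε₁, hε₁⟩ : ∃ ε₁ : ℝ, ε₁ = ε / (2 * (K + 4)) := ⟨_, rfl⟩
  have hε10 : 0 < ε₁ := by
    rw [hε₁]
    positivity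
  obtain ⟨δ₁, hδ₁, c₀, hc₀, N₀, hN₀, H⟩ := Pool.AJ18.all_jets D hD1 hh hh1 hε10
  obtain ⟨δ, hδe⟩ : ∃ δ : ℝ, δ = min (δ₁ / 2) (ε / 4) := ⟨_, rfl⟩
  have hδ : 0 < δ := by
    rw [hδe]
    exact lt_min (by positivity) (by positivity)
  have hδ12 : δ ≤ δ₁ / 2 := by rw [hδe]; exact min_le_left _ _
  have hδε : δ ≤ ε / 4 := by rw [hδe]; exact min_le_right _ _
  refine ⟨δ, hδ, N₀, hN₀, ?_⟩
  intro m S C₀ htm I κ w a p q r hw0 hwa ha hq hwq hr U₀ Qu α γ f y hf hy e he Ψ hΨl hΨ hc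
    hnf hval hnat K₀
  have hw1 : w < 1 := by linarith
  have hN0 : (0 : ℝ) < N₀ := by exact_mod_cast hN₀
  have hδq : 0 < δ₁ * q := by positivity
  obtain ⟨J₃, H⟩ := H hw0 hq hwq
  -- the jets
  obtain ⟨Nj, hNj⟩ : ∃ Nj : ℕ → ℝ, Nj = fun j : ℕ => if j = 0 then p + q else p - (j : ℝ) * w :=
    ⟨_, rfl⟩
  have hF : ∀ j < K + 3, j ≠ 0 → F1 S f (vg a) y Qu (qJet m I κ j w p (Nj j)) e (δ * q) := by
    intro j hj h0
    have e1 : Nj j = p - j * w := by rw [hNj]; exact if_neg h0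
    rw [e1]
    exact hnat j hj h0
  choose M Jm hcnt using fun j : ℕ => cnt_jet m K j (N := Nj j) (w := w) hr he
  obtain ⟨M', hM'⟩ : ∃ M' : ℕ, M' = K₀ + K + ∑ j ∈ range (K + 3), M j := ⟨_, rfl⟩
  obtain ⟨J₁, hJ₁⟩ : ∃ J₁ : ℕ, J₁ = ∑ j ∈ range (K + 3), Jm j := ⟨_, rfl⟩
  have hl7' : 0 ≤ Real.log 7 := Real.log_nonneg (by norm_num)
  obtain ⟨J₂, hJ₂⟩ := exists_nat_ge (Real.log 7 / (δ₁ / 2 * q) + (K + 3) * Real.log 7 / (ε / 4 * q))
  have hFa : Bas S (fun J F A => ∀ j < K + 3, j ≠ 0 → ∀ (u : F.Ω → U₀) (u' : F.Ω → ℤ),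
      Qu.P M' e J F A u → (qJet m I κ j w p (Nj j)).P M' e J F A u' →
      ∃ (V : Type) (z : F.Ω → V), Cl2 (f J F) (vg a J F) A z ∧
        CH (Pool.Agent.H49.Ent.cond F.p A True) u' (fun ω => (u ω, (z ω, y J F ω))) ≤
          δ * q * J) := by
    refine Bas.all (K + 3) fun j hj => ?_
    by_cases h0 : j = 0
    · exact ⟨1, one_pos, 0, fun J _ F A _ h => absurd h0 h⟩
    · refine Bas.mono 0 (hF j hj h0 M') ?_
      intro J _ F A h _
      exact h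
  refine Bas.mono (max (max J₁ J₂) J₃) (((hFa.and (hval K₀)).and
    (Bas.all (N₀ + 1) fun i _ => Bas.all (N₀ + 1) fun j _ =>
      (?_ : Bas S (fun J F A => ∀ B : F.Ω → Prop, Sub B A → Pe F.p A ≤ 1 / c₀ * Pe F.p B →
        i ≤ j → j ≤ N₀ → ∀ (V C : Type) (z : PtT F → V)
      (z' : LnT F → V) (G : V → MvPolynomial (Option (Fin m)) ℝ) (c : LnT F → C),
      Ψ J F B V C z z' G c →
      CH (Pool.Agent.H49.Ent.cond F.p B True)
        (fun ω => ⌊(2 : ℝ) ^ ((p + (q - q * i / N₀)) * J) *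
          ojet F κ 0 (G (z' (slam F ⌊w * J⌋₊ ω))) ω⌋)
        (fun ω => (⌊(2 : ℝ) ^ ((p + (q - q * j / N₀)) * J) *
          ojet F κ 0 (G (z' (slam F ⌊w * J⌋₊ ω))) ω⌋,
          (z' (slam F ⌊w * J⌋₊ ω), (c (slam F ⌊w * J⌋₊ ω), F.W ω)))) ≤
        ((1 - h) * ((q - q * i / N₀) - (q - q * j / N₀)) * Real.log 2 + δ * q) * J)))).and
    ((hc K₀).and (Pool.GRW.tmc_bas htm (ψ := δ₁ * q) (by positivity)))) ?_
  · by_cases hij : i ≤ j ∧ j ≤ N₀
    · obtain ⟨hij, hjN⟩ := hij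
      have hij' : (i : ℝ) ≤ j := by exact_mod_cast hij
      have hjN' : (j : ℝ) ≤ N₀ := by exact_mod_cast hjN
      have h1 : q * j / N₀ ≤ q := by
        rw [div_le_iff₀ hN0]
        exact mul_le_mul_of_nonneg_left hjN' hq.le
      have h2 : q * i / N₀ ≤ q * j / N₀ := by gcongr
      refine Bas.mono 0 (Pool.GRW.bas_part (hnf i (hij.trans hjN) (q - q * j / N₀) (by linarith)
        (by linarith)) (c := 1 / c₀) (by positivity)) ?_
      intro J _ F A h4 B hB hP _ _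
      exact h4 B hB hP
    · refine Bas.mono 0 (hc K₀) ?_
      intro J _ F A _ B _ _ a1 a2
      exact absurd ⟨a1, a2⟩ hij
  rintro J hJ F A ⟨⟨⟨HF, HVal⟩, HN⟩, hcA, hA, hT⟩ V Cc z z' G c hcΨ u₀ hu₀
  obtain ⟨Vc, zc, hzc, hc⟩ := hcA V Cc z z' G c hcΨ u₀ hu₀
  have hlb := hΨl J F A V Cc z z' G c hcΨ
  have hJ1 : J₁ ≤ J := (le_max_left _ _).trans ((le_max_left _ _).trans hJ)
  have hJ2 : (J₂ : ℝ) ≤ J := by
    exact_mod_cast (le_max_right _ _).trans ((le_max_left _ _).trans hJ)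
  have hJ3 : J₃ ≤ J := (le_max_right _ _).trans hJ
  have hJ0 : (0 : ℝ) ≤ J := Nat.cast_nonneg J
  have hl2' : 0 ≤ Real.log 2 := Real.log_nonneg (by norm_num)
  have hK3 : (0 : ℝ) ≤ K + 3 := by positivity
  have t0 : 0 ≤ Real.log 7 / (δ₁ / 2 * q) := by positivity
  have t1 : 0 ≤ (K + 3) * Real.log 7 / (ε / 4 * q) := by positivity
  have hl7 : Real.log 7 ≤ δ₁ / 2 * q * J := by
    have h1 : Real.log 7 / (δ₁ / 2 * q) ≤ J := by linarith
    rw [div_le_iff₀ (by positivity)] at h1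
    linarith
  have hlK : (K + 3) * Real.log 7 ≤ ε / 4 * q * J := by
    have h1 : (K + 3) * Real.log 7 / (ε / 4 * q) ≤ J := by linarith
    rw [div_le_iff₀ (by positivity)] at h1
    linarith
  have hqJ : 0 ≤ q * J := by positivity
  have hd1 : δ * q * J ≤ δ₁ / 2 * q * J := by
    have := mul_le_mul_of_nonneg_right hδ12 hqJ
    linarith
  have hd2 : δ * q * J ≤ ε / 4 * q * J := by
    have := mul_le_mul_of_nonneg_right hδε hqJ
    linarith
  obtain ⟨W, hW⟩ : ∃ W : ℕ, W = ⌊w * J⌋₊ := ⟨_, rfl⟩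
  have hWJ : W ≤ J := by
    rw [hW]
    refine Nat.floor_le_of_le ?_
    nlinarith
  obtain ⟨σ, hσ⟩ : ∃ σ : ℝ, σ = 2 ^ ((p + q) * J) := ⟨_, rfl⟩
  have hσ0 : 0 < σ := by
    rw [hσ]
    exact Real.rpow_pos_of_pos (by norm_num) _
  obtain ⟨q', hq'⟩ : ∃ q' : F.Ω → ℝ, q' = Pool.Agent.H49.Ent.cond F.p A True := ⟨_, rfl⟩
  have hq'l : IsLaw q' := by
    rw [hq']
    exact isLaw_cond F.isLaw hA
  have h0 := hq'l.nonneg
  rw [← hq'] at hc hT
  rw [← hq', ← hσ, ← hW]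
  rw [← hW] at hlb
  have hvg : ∀ ω, vg w J F ω = slam F W ω := fun ω => by rw [hW]; rfl
  simp only [hvg] at hc ⊢
  have hdegK : ∀ v, (X (some κ) - G v).totalDegree ≤ K + 2 := fun v => by
    refine (MvPolynomial.totalDegree_sub _ _).trans (max_le ?_ ?_)
    · exact (totalDegree_X _).le.trans (by omega)
    · exact (hlb.deg v).trans (by omega)
  have hdR : ∀ x, (jR F W σ κ z' G x).natDegree ≤ K + 2 := fun x => natDegree_jR hdegK x
  have hpj : ∀ (j : ℕ) (ω : F.Ω), pj F (jR F W σ κ z' G) W j ω =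
      σ * (1 / 2 ^ (W + 1)) ^ j * ojet F κ j (G (z' (slam F W ω))) ω := fun j ω =>
    jR_jet hWJ ω j
  -- the jets as integers
  obtain ⟨U, hU⟩ : ∃ U : F.Ω → Fin (K + 3) → ℤ, U = fun ω (j : Fin (K + 3)) =>
    ⌊(2 : ℝ) ^ (Nj (j : ℕ) * J) * ojet F κ (j : ℕ) (G (z' (slam F W ω))) ω⌋ := ⟨_, rfl⟩
  have hz : ∀ j : Fin (K + 3), ∃ (V₂ : Type) (z₂ : F.Ω → V₂), Cl2 (f J F) (vg a J F) A z₂ ∧
      CH q' (fun ω => U ω j) (fun ω => (u₀ ω, (z₂ ω, y J F ω))) ≤ δ * q * J := by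
    intro j
    by_cases hj0 : (j : ℕ) = 0
    · obtain ⟨V₂, z₂, hz₂, h1⟩ := HVal V Cc z z' G c hcΨ u₀ hu₀
      refine ⟨V₂, z₂, hz₂, ?_⟩
      rw [← hq', ← hW] at h1
      have e1 : Nj (j : ℕ) = p + q := by rw [hj0, hNj]; exact if_pos rfl
      have e2 : (fun ω => U ω j) = fun ω => ⌊(2 : ℝ) ^ ((p + q) * J) *
          ojet F κ 0 (G (z' (slam F W ω))) ω⌋ := by
        funext ω
        rw [hU]
        show ⌊(2 : ℝ) ^ (Nj (j : ℕ) * J) * ojet F κ (j : ℕ) (G (z' (slam F W ω))) ω⌋ = _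
        rw [e1, hj0]
      rw [e2]
      exact h1
    have h1 := HF j j.2 hj0 u₀ (fun ω => U ω j) (Qu.mono (by omega) le_rfl hu₀)
      ⟨?_, V, z, z', G, ?_, fun ω _ => by rw [hU, hW]⟩
    · rw [← hq'] at h1
      exact h1
    · have hMj : M j ≤ M' := by
        rw [hM']
        have := Finset.single_le_sum (f := M) (fun i _ => Nat.zero_le _)
          (Finset.mem_range.2 j.2)
        omega
      have hJj : Jm j ≤ J := by
        have := Finset.single_le_sum (f := Jm) (fun i _ => Nat.zero_le _)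
          (Finset.mem_range.2 j.2)
        omega
      have h2 := hcnt j J hJj F I κ _ A V z z' G (by rw [← hW]; exact hlb)
      rw [← hW] at h2
      rw [hU]
      refine h2.trans (Real.exp_le_exp.2 (mul_le_mul_of_nonneg_right ?_ hJ0))
      exact_mod_cast hMj
    · rw [← hW]
      exact (LbP.of hlb).mono (Finset.Subset.refl _) (by omega) le_rfl
  choose Vz zz hzz hCz using hz
  -- the record of the ball
  obtain ⟨Y, hY⟩ : ∃ Y : F.Ω → U₀ × ((V × (F.ζ × ℕ)) × (Vc × (∀ j, Vz j))) × γ J F, Y = fun ω =>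
    (u₀ ω, ((z' (slam F W ω), (slam F W ω).2), (zc ω, fun j => zz j ω)), y J F ω) := ⟨_, rfl⟩
  have H' := H J hJ3 F A hA (jR F W σ κ z' G) (fun x : LnT F => ((z' x, x.2), c x)) Y
  rw [← hq', ← hW] at H'
  have hYj : ∀ j : Fin (K + 3), CH q' (fun ω => U ω j) Y ≤ δ * q * J := by
    intro j
    refine le_trans (CH_mono_cond h0 fun ω ω' _ _ hh => ?_) (hCz j)
    rw [hY] at hh
    simp only [Prod.mk.injEq] at hh ⊢
    exact ⟨hh.1, congrFun hh.2.1.2.2 j, hh.2.2⟩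
  have hYc : CH q' (fun ω => c (slam F W ω)) Y ≤ δ * q * J := by
    refine le_trans (CH_mono_cond h0 fun ω ω' _ _ hh => ?_) hc
    rw [hY] at hh
    simp only [Prod.mk.injEq] at hh ⊢
    exact ⟨hh.1, hh.2.1.2.1, hh.2.2⟩
  -- the scales
  have hU0 : ∀ ω ω', U ω ⟨0, by omega⟩ = U ω' ⟨0, by omega⟩ →
      |pj F (jR F W σ κ z' G) W 0 ω - pj F (jR F W σ κ z' G) W 0 ω'| ≤ 1 := by
    intro ω ω' e
    rw [hU] at e
    have e1 : Nj 0 = p + q := by
      rw [hNj]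
      exact if_pos rfl
    simp only [e1] at e
    rw [hpj, hpj]
    refine fl_scale (by positivity) ?_ (Real.rpow_pos_of_pos (by norm_num) _) e
    rw [one_mul, hσ, pow_zero, mul_one]
  have hUj : ∀ (j : ℕ) (hj : j < K + 3), j ≠ 0 → ∀ ω ω', U ω ⟨j, hj⟩ = U ω' ⟨j, hj⟩ →
      |pj F (jR F W σ κ z' G) W j ω - pj F (jR F W σ κ z' G) W j ω'| ≤ 2 ^ (q * J) := by
    intro j hj hjk ω ω' e
    rw [hU] at e
    have e1 : Nj j = p - j * w := by
      rw [hNj]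
      exact if_neg hjk
    simp only [e1] at e
    rw [hpj, hpj]
    refine fl_scale (by positivity) ?_ (Real.rpow_pos_of_pos (by norm_num) _) e
    have e2 : σ * (1 / 2 ^ (W + 1)) ^ j ≤ 2 ^ ((p + q - j * w) * J) := by
      rw [hσ, hW]
      exact (scale_le hw0 J j).1
    refine e2.trans (le_of_eq ?_)
    rw [← Real.rpow_add (by norm_num)]
    congr 1
    ring
  have hl57 : Real.log 5 ≤ Real.log 7 := Real.log_le_log (by norm_num) (by norm_num)
  -- the steps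
  have hfin := H' ⟨fun x => (hdR x).trans (by omega), ?_, ?_, ?_, ?_, ?_⟩ ?_
  · -- the end
    obtain ⟨φf, hφf⟩ := hf J F
    obtain ⟨φg, hφg⟩ := vg_mono hwa ha J F
    refine ⟨_, fun ω => ((z' (slam F W ω), (slam F W ω).2), (zc ω, fun j => zz j ω)),
      Cl2.join ⟨?_, ?_⟩ (Cl2.join hzc (Cl2.pi hzz)), ?_⟩
    · refine ⟨fun x => (z (φf x), ((φf x).2.2, (φf x).2.1 / 2 ^ (J - W))), fun ω hω => ?_⟩
      dsimp only
      rw [← hφf ω, hlb.cls ω hω]
      rfl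
    · refine ⟨fun x => (z' (φg x), (φg x).2), fun ω _ => ?_⟩
      dsimp only
      rw [← hφg ω, hvg ω]
    · obtain ⟨E, hE⟩ : ∃ E : ℝ, E = 2 ^ (ε₁ * q * J) := ⟨_, rfl⟩
      have hE1 : 1 ≤ E := by
        rw [hE]
        exact Real.one_le_rpow (by norm_num) (by positivity)
      rw [← hE] at hfin
      obtain ⟨V₁, hV₁⟩ : ∃ V₁ : F.Ω → Fin (D + 1) → ℤ, V₁ = fun ω (j : Fin (D + 1)) =>
        ⌊(jR F W σ κ z' G (slam F W ω)).coeff j / E⌋ := ⟨_, rfl⟩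
      have g1 : CH q' V₁ Y ≤ ε₁ * q * J := le_trans (CH_mono_left h0 fun ω ω' _ _ e => by
        rw [hV₁]
        exact (Prod.ext_iff.mp (Prod.ext_iff.mp e).1).2) hfin
      obtain ⟨V₂, hV₂⟩ : ∃ V₂ : F.Ω → Fin (K + 3) → ℤ, V₂ = fun ω (j : Fin (K + 3)) =>
        ⌊jr F W σ κ z' G j (slam F W ω)⌋ := ⟨_, rfl⟩
      have g2 : CH q' V₂ (fun ω => (V₁ ω, Y ω)) ≤ (K + 3) * (Real.log 7 + ε₁ * q * J) := by
        refine (CH_pis h0 V₂ _).trans ?_
        have h1 : ∀ j ∈ (univ : Finset (Fin (K + 3))), CH q' (fun ω => V₂ ω j)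
            (fun ω => (V₁ ω, Y ω)) ≤ Real.log 7 + ε₁ * q * J := by
          intro j _
          have h2 : CH q' (fun ω => V₂ ω j) (fun ω => (V₁ ω, Y ω)) ≤
              Real.log (2 * ((⌈E⌉₊ + 1 : ℕ) : ℝ) + 1) := by
            refine CH_pair hq'l _ _ fun ω ω' _ _ e => ?_
            have e1 := congrFun (Prod.ext_iff.mp e).1 ⟨(j : ℕ), by omega⟩
            rw [hV₁] at e1
            have e2 := of_floor_div (zero_lt_one.trans_le hE1) e1
            rw [hV₂]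
            exact floor_sub_le (e2.trans (Nat.le_ceil E))
          refine h2.trans ?_
          have h3 := Nat.ceil_lt_add_one (zero_le_one.trans hE1)
          have h4 : 2 * ((⌈E⌉₊ + 1 : ℕ) : ℝ) + 1 ≤ 7 * E := by
            push_cast
            linarith
          have h5 := Real.log_le_log (by positivity) h4
          rw [Real.log_mul (by norm_num) (by positivity)] at h5
          have h6 : Real.log E ≤ ε₁ * q * J := by
            rw [hE, Real.log_rpow (by norm_num)]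
            have h7 : Real.log 2 ≤ 1 := by
              have := Real.log_two_lt_d9
              linarith
            have h8 : 0 ≤ ε₁ * q * J := by positivity
            nlinarith
          linarith
        refine (Finset.sum_le_sum h1).trans (le_of_eq ?_)
        rw [Finset.sum_const, Finset.card_univ, Fintype.card_fin, nsmul_eq_mul]
        push_cast
        ring
      have g3 := CH_le_add h0 V₂ V₁ Y
      have g4 := CH_subadd h0 (fun ω => c (slam F W ω)) V₂ Y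
      have g5 : (K + 4) * (ε₁ * q * J) = ε / 2 * (q * J) := by
        rw [hε₁]
        field_simp
      rw [hY] at g1 g2 g3 g4
      refine le_trans (CH_mono_left h0 fun ω ω' _ _ e => ?_) (g4.trans ?_)
      · obtain ⟨e1, e2⟩ := Prod.ext_iff.mp e
        obtain ⟨e3, e4⟩ := Prod.ext_iff.mp e1
        have e5 := (Prod.ext_iff.mp (Prod.ext_iff.mp (Prod.ext_iff.mp e2).2).1).1
        rw [hV₂] at e4
        exact Prod.ext e5 (Prod.ext e3 e4)
      · rw [hY] at hYc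
        linarith
  · -- the time
    rw [← hq']
    exact hT
  · -- the key
    intro ω ω' _ _ e
    rw [hY] at e
    simp only [Prod.mk.injEq] at e
    obtain ⟨φ, hφ⟩ := hy J F
    refine ⟨?_, (Prod.ext_iff.mp e.2.1.1.2).1⟩
    rw [hφ, hφ, e.2.2]
  · -- the context
    rw [← hq']
    refine le_trans (le_of_eq ?_) (hYc.trans (hd1.trans ?_))
    · refine CH_congr h0 ?_ ?_ (fun _ _ _ _ e => e) (fun _ _ _ _ e => e)
      · intro ω ω' _ _ e
        simp only [Prod.mk.injEq] at e ⊢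
        exact e.1.2
      · intro ω ω' _ _ e
        have e1 := (Prod.ext_iff.mp e).2
        rw [hY] at e1
        simp only [Prod.mk.injEq] at e e1 ⊢
        exact ⟨⟨e1.2.1.1.1, e1.2.1.1.2⟩, e.1⟩
    · have : 0 ≤ δ₁ / 2 * (q * J) := by positivity
      linarith
  · -- the value
    rw [← hq']
    have s1 := CH_le_add h0 (fun ω => ⌊pj F (jR F W σ κ z' G) W 0 ω⌋)
      (fun ω => U ω ⟨0, by omega⟩) Y
    have s2 := CH_pair (D := 1 + 1) hq'l (fun ω => ⌊pj F (jR F W σ κ z' G) W 0 ω⌋)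
      (fun ω => (U ω ⟨0, by omega⟩, Y ω)) (fun ω ω' _ _ e => by
        have h3 := hU0 ω ω' (Prod.ext_iff.mp e).1
        exact floor_sub_le (by push_cast; exact h3))
    have s3 := hYj ⟨0, by omega⟩
    have s4 : Real.log (2 * ((1 + 1 : ℕ) : ℝ) + 1) = Real.log 5 := by norm_num
    rw [s4] at s2
    linarith
  · -- the natural jets
    intro j hjD hjk
    have hj : j < K + 3 := by omega
    rw [← hq']
    have hqJp : (0 : ℝ) < 2 ^ (q * J) := Real.rpow_pos_of_pos (by norm_num) _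
    have s1 := CH_le_add h0 (fun ω => ⌊pj F (jR F W σ κ z' G) W j ω / 2 ^ (q * J)⌋)
      (fun ω => U ω ⟨j, hj⟩) Y
    have s2 := CH_pair (D := 1 + 1) hq'l (fun ω => ⌊pj F (jR F W σ κ z' G) W j ω / 2 ^ (q * J)⌋)
      (fun ω => (U ω ⟨j, hj⟩, Y ω)) (fun ω ω' _ _ e => by
        have h3 := hUj j hj hjk ω ω' (Prod.ext_iff.mp e).1
        refine floor_sub_le ?_
        rw [← sub_div, abs_div, abs_of_pos hqJp, div_le_iff₀ hqJp]
        push_cast
        linarith)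
    have s3 := hYj ⟨j, hj⟩
    have s4 : Real.log (2 * ((1 + 1 : ℕ) : ℝ) + 1) = Real.log 5 := by norm_num
    rw [s4] at s2
    linarith
  · -- the rows
    intro B hBA hPB i j hij hj
    have hPB0 : 0 < Pe F.p B := lt_of_lt_of_le (by positivity) hPB
    have hpart : Pe F.p A ≤ 1 / c₀ * Pe F.p B := by
      rw [one_div, ← div_eq_inv_mul, le_div_iff₀ hc₀]
      linarith
    have hBl : IsLaw (Pool.Agent.H49.Ent.cond F.p B True) := isLaw_cond F.isLaw hPB0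
    have h1 := HN i (by omega) j (by omega) B hBA hpart hij hj V Cc z z' G c
      (hΨ _ _ _ _ _ _ _ _ _ _ hBA hcΨ)
    rw [← hW] at h1
    have e0 : ∀ ω, pj F (jR F W σ κ z' G) W 0 ω = σ * ojet F κ 0 (G (z' (slam F W ω))) ω := by
      intro ω
      rw [hpj, pow_zero, mul_one]
    have e1 : ∀ (x : ℝ) ω, pj F (jR F W σ κ z' G) W 0 ω / 2 ^ (x * J) =
        (2 : ℝ) ^ ((p + (q - x)) * J) * ojet F κ 0 (G (z' (slam F W ω))) ω := by
      intro x ω
      rw [e0, hσ]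
      have e2 : (2 : ℝ) ^ ((p + q) * J) = 2 ^ (x * J) * 2 ^ ((p + (q - x)) * J) := by
        rw [← Real.rpow_add (by norm_num)]
        congr 1
        ring
      have e3 : (0 : ℝ) < 2 ^ (x * J) := Real.rpow_pos_of_pos (by norm_num) _
      rw [e2]
      field_simp
    simp only [e1]
    refine (CH_mono_cond hBl.nonneg fun ω ω' _ _ e => ?_).trans (h1.trans ?_)
    · simp only [Prod.mk.injEq] at e ⊢
      exact ⟨e.1, e.2.1.1.1, e.2.1.2, e.2.2⟩
    · refine mul_le_mul_of_nonneg_right ?_ hJ0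
      have h2 : δ * q ≤ δ₁ * q := by
        refine mul_le_mul_of_nonneg_right ?_ hq.le
        linarith
      have e4 : (q - q * i / N₀) - (q - q * j / N₀) = q * j / N₀ - q * i / N₀ := by ring
      rw [e4]
      linarith

end Pool.AJW
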