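import Pool.Agent.H71.AJW.Jetb
import Pool.Agent.H54.OWN.Ejet

/-!
# The jets of the chain

`JetA`: all jets of the chain over the window `v` are few bits, with errors as small as we want.
`jet_hi`: a jet which is natural at an earlier window `v₀ ≤ v` (for coordinates of slope one: all
orders `≥ 2`). `jetA_ones`: `JetA` from the jets of order `0`, `1`, if all others are natural at `v₀`.
`jetA_E`: `JetA` for one coordinate over the base, from the jets of order `0`, `1`, if `y` knows the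
path of the base. `JetA.ctx`: the context.
-/

set_option autoImplicit false

namespace Pool.AJW

open Finset Real MvPolynomial
open Pool.Agent.H49.Ent Pool.Agent.H32.Dense Pool.STK Pool.KA Pool.KSAT Pool.K2S Pool.PB Pool.GEN
open Pool.S6C Pool.RCD Pool.LA91 Pool.OWN68
open Pool.GRD (LbP)
open Pool.UNJ (ceI Tub)

variable {m : ℕ}

/-- **The jets of the chain** over the labels of the window `v`, few bits with errors as small as we
want, for one accuracy. -/
def JetA (S : PCl m) {α β γ : ∀ J : ℕ, Fam m J → Type} {U : Type}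
    (f : ∀ (J : ℕ) (F : Fam m J), F.Ω → α J F)
    (g : ∀ (J : ℕ) (F : Fam m J), F.Ω → β J F) (y : ∀ (J : ℕ) (F : Fam m J), F.Ω → γ J F)
    (Q : Qt m U) (c : ℕ → Fin m) (r₀ r : ℕ) (v : ℝ) (p n : ℕ → ℝ) (e : ℝ) : Prop :=
  ∀ η : ℝ, 0 < η → ∀ l, r₀ ≤ l → l < r → ∀ j : ℕ, F1 S f g y Q
    (qJet m ((range l).image c) (c l) j v (p l) (n l - j * v)) e η

section

variable {S : PCl m} {C₀ : ℝ} {α β γ : ∀ J : ℕ, Fam m J → Type} {U : Type}
  {f : ∀ (J : ℕ) (F : Fam m J), F.Ω → α J F}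
  {g : ∀ (J : ℕ) (F : Fam m J), F.Ω → β J F} {y : ∀ (J : ℕ) (F : Fam m J), F.Ω → γ J F}
  {Q : Qt m U} {c : ℕ → Fin m} {r₀ r R K : ℕ} {v a lam : ℝ} {rd p n : ℕ → ℝ} {e δ : ℝ}

theorem JetA.mono {e' : ℝ} (h : JetA S f g y Q c r₀ r v p n e) (he : e' ≤ e) :
    JetA S f g y Q c r₀ r v p n e' := fun η hη l x y j => (h η hη l x y j).mono he le_rfl

theorem JetA.jetP (h : JetA S f g y Q c r₀ r v p n e) (hδ : 0 < δ) :
    JetP S f g y Q c r₀ r v p n e δ := by
  intro K
  have h1 : (0 : ℝ) < (r + 1) * (K + 3) := by positivity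
  refine ⟨fun _ _ => δ / ((r + 1) * (K + 3)), fun _ _ => by positivity, ?_,
    fun l x y j _ => h _ (by positivity) l x y j⟩
  rw [Finset.sum_const, Finset.sum_const, Nat.card_Ico, Finset.card_range, nsmul_eq_mul,
    nsmul_eq_mul]
  have h2 : ((r - r₀ : ℕ) : ℝ) ≤ r + 1 := by
    have : ((r - r₀ : ℕ) : ℝ) ≤ r := by exact_mod_cast Nat.sub_le r r₀
    linarith
  push_cast
  calc ((r - r₀ : ℕ) : ℝ) * ((K + 3) * (δ / ((r + 1) * (K + 3)))) ≤
        (r + 1) * ((K + 3) * (δ / ((r + 1) * (K + 3)))) :=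
        mul_le_mul_of_nonneg_right h2 (by positivity)
    _ = δ := by
        field_simp

/-- **The context** from the jets of the chain. -/
theorem JetA.ctx (htm : TmC S C₀) (h : JetA S f (vg a) y Q c r₀ r v p n e) (hv0 : 0 ≤ v)
    (hva : v ≤ a) (ha : a ≤ 1) (hlam : 0 ≤ lam) (he : 0 < e)
    (hrd : ∀ i, r₀ ≤ i → i < r → 0 ≤ rd i) (hy : Kn ((range r₀).image c) (v + lam) lam y)
    (hδ : 0 < δ) (hR : r ≤ R) {e' : ℝ} (he' : 0 < e') (hle : e' ≤ e) :
    FwL S f (vg a) y Q c r₀ R K v rd p (Pool.AJW.ctx c r₀ r K v lam n) e' δ := fun K₀ =>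
  ctxN_few htm hv0 hva ha hlam he' hrd hy
    (((h.mono hle).jetP (show 0 < δ / 2 by linarith)).jetV le_rfl) (by linarith) K K₀ R hR

/-- The jets of a chain, from the jets of its coordinates. -/
theorem F1.qjets' (htm : TmC S C₀) {j : ℕ} {η : ℝ} (hη : 0 < η)
    (h : ∀ η' : ℝ, 0 < η' → ∀ i, r₀ ≤ i → i < r → ∀ j' ≤ j, F1 S f g y Q
      (qJet m ((range i).image c) (c i) j' v (p i) (n i - (j' : ℕ) * v)) e η') :
    F1 S f g y Q (qJets m c r₀ r j (fun _ _ => v) (fun l _ => p l)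
      (fun l j' => n l - (j' : ℕ) * v)) e η := by
  have h1 : (0 : ℝ) < ((r * (j + 1) : ℕ) : ℝ) + 1 := by positivity
  have h2 := F1.qjets htm (Q := Q) (c := c) (r₀ := r₀) (r := r) (j := j) (w := fun _ _ => v)
    (p := fun l _ => p l) (N := fun l j' => n l - (j' : ℕ) * v)
    (η := η / (((r * (j + 1) : ℕ) : ℝ) + 1)) (by positivity)
    (fun i x y j' hj' => h _ (by positivity) i x y j' hj')
  refine h2.mono le_rfl ?_
  rw [mul_div_assoc', div_le_iff₀ h1]
  nlinarith

/-- **A jet which is natural at an earlier window.** -/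
theorem jet_hi (htm : TmC S C₀) {i j : ℕ} {v₀ P₀ σ u₁ rk e₁ η h N : ℝ} {lv : ℕ → ℝ}
    (hch : Chn S c r₀ i v v u₁ p rd) (hva : v ≤ a) (ha : a ≤ 1) (hv0 : 0 ≤ v₀) (hvv : v₀ ≤ v)
    (hrk : 0 ≤ rk) (hatt : Att S ((range i).image c) (c i) v₀ P₀ rk) (hσ : 0 < σ)
    (hlam : 0 < lam) (hl1 : v + lam ≤ 1)
    (hlv : ∀ l, r₀ ≤ l → l < i → 0 < lv l)
    (h1 : ∀ l, r₀ ≤ l → l < i → p l + lv l + σ ≤ n l)
    (h2 : ∀ l, r₀ ≤ l → l < i → lv l + σ ≤ lam)
    (h3 : ∀ l, r₀ ≤ l → l < i → ∀ l', r₀ ≤ l' → l' < l → lv l + σ ≤ lv l')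
    (h4 : N + j * v + σ ≤ min P₀ (p i) + lam)
    (h5 : ∀ l, r₀ ≤ l → l < i → N + j * v + σ ≤ min P₀ (p i) + lv l)
    (h6 : N + j * v₀ + σ ≤ P₀)
    (hf : ∀ (J : ℕ) (F : Fam m J), ∃ φ : α J F → PtT F, ∀ ω, ptr F J ω = φ (f J F ω))
    (hy : Kn ((range r₀).image c) (v + lam) lam y) (he₁ : 0 < e₁) (hh : 0 < h)
    (hex : Exs S (qJets m c r₀ i j (fun _ _ => v) (fun l _ => p l)
      (fun l j' => n l - (j' : ℕ) * v)))
    (hV : F1 S f (vg a) y Q (qJets m c r₀ i j (fun _ _ => v) (fun l _ => p l)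
      (fun l j' => n l - (j' : ℕ) * v)) e₁ η) :
    F1 S f (vg a) y Q (qJet m ((range i).image c) (c i) j v (p i) N) (min e₁ (σ / 8))
      (η + h) := by
  have hw1 : v < 1 := hch.u0
  have he : 0 < min e₁ (σ / 8) := lt_min he₁ (by linarith)
  have hmin : min lam (v + lam - v) = lam := by
    have e1 : v + lam - v = lam := by ring
    rw [e1, min_self]
  -- natural at `v₀`
  have a1 : F1 S f (vg a) y Q (qJet m ((range i).image c) (c i) j v₀ P₀ N)
      (min e₁ (σ / 8)) (h / 2) :=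
    F1.of0 htm ((few0_room htm hv0 (by linarith) hσ h6 _ _ _ (half_pos hh)).mono (by
        have := min_le_right e₁ (σ / 8)
        linarith) le_rfl)
  have a3 : F1 S f (vg a) y
      ((qJets m c r₀ i j (fun _ _ => v) (fun l _ => p l) (fun l j' => n l - (j' : ℕ) * v)).prod
        (qJet m ((range i).image c) (c i) j v₀ P₀ N))
      (qJet m ((range i).image c) (c i) j v (p i) N) (min e₁ (σ / 8)) (h / 2) := by
    refine (F1.up hva ha (jetN_F1 htm hch (lv := lv) (p₀ := v + lam) (lam := lam) (σ₀ := σ)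
      (wv := fun _ _ => v) (pv := fun l _ => p l) (Nv := fun l j' => n l - (j' : ℕ) * v)
      (fun _ _ _ _ _ => le_rfl) hvv le_rfl (by linarith) hl1 hlam hσ hlv ?_ ?_ ?_ le_rfl ?_ ?_
      hf hy (half_pos hh))).mono (min_le_right _ _) le_rfl
    · intro l x y j' _
      linarith [h1 l x y]
    · intro l x y j' _
      rw [hmin, min_self]
      linarith [h2 l x y]
    · intro l x y j' _ l' x' y'
      rw [min_self]
      linarith [h3 l x y l' x' y']
    · rw [hmin]
      exact h4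
    · exact h5
  have b1 : F1 S f (vg a) y (Q.prod (qJet m ((range i).image c) (c i) j v₀ P₀ N))
      (qJet m ((range i).image c) (c i) j v (p i) N) (min e₁ (σ / 8)) (η + h / 2) := by
    refine F1.cut htm hex he (F1.pull htm (Q₁ := Q) (fun u => u.1) (fun _ _ _ _ _ _ hu => hu.1)
      (hV.mono (min_le_left _ _) le_rfl))
      (F1.pull htm (Q₁ := (qJets m c r₀ i j (fun _ _ => v) (fun l _ => p l)
        (fun l j' => n l - (j' : ℕ) * v)).prod (qJet m ((range i).image c) (c i) j v₀ P₀ N))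
      (fun u => (u.2, u.1.2)) (fun _ _ _ _ _ _ hu => ⟨hu.2, hu.1.2⟩) a3)
  have b2 := F1.cut htm (exs_jet hrk hatt) he a1 b1
  refine b2.mono le_rfl (by linarith)

/-- **All jets of the chain from the jets of order `0` and `1`**, if the others are natural at an
earlier window. -/
theorem jetA_ones (htm : TmC S C₀) {v₀ σ u₁ e₁ : ℝ} {P₀ lv : ℕ → ℝ}
    (hch : Chn S c r₀ r v v u₁ p rd) (hrd : ∀ l, r₀ ≤ l → l < r → 0 ≤ rd l)
    (hva : v ≤ a) (ha : a ≤ 1) (hv0 : 0 ≤ v₀) (hvv : v₀ ≤ v)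
    (hatt : ∀ i, r₀ ≤ i → i < r → ∃ rk : ℝ, 0 ≤ rk ∧
      Att S ((range i).image c) (c i) v₀ (P₀ i) rk) (hσ : 0 < σ)
    (hlam : 0 < lam) (hl1 : v + lam ≤ 1)
    (hlv : ∀ l, r₀ ≤ l → l < r → 0 < lv l)
    (h1 : ∀ l, r₀ ≤ l → l < r → p l + lv l + σ ≤ n l)
    (h2 : ∀ l, r₀ ≤ l → l < r → n l + σ ≤ min (P₀ l) (p l) + lam)
    (h3 : ∀ i, r₀ ≤ i → i < r → ∀ l, r₀ ≤ l → l < i → n i + σ ≤ min (P₀ i) (p i) + lv l)
    (h4 : ∀ i, r₀ ≤ i → i < r → n i + σ ≤ P₀ i + 2 * (v - v₀))
    (hf : ∀ (J : ℕ) (F : Fam m J), ∃ φ : α J F → PtT F, ∀ ω, ptr F J ω = φ (f J F ω))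
    (hy : Kn ((range r₀).image c) (v + lam) lam y) (he₁ : 0 < e₁)
    (hV : ∀ η : ℝ, 0 < η → ∀ l, r₀ ≤ l → l < r → ∀ j ≤ 1, F1 S f (vg a) y Q
      (qJet m ((range l).image c) (c l) j v (p l) (n l - (j : ℕ) * v)) e₁ η) :
    JetA S f (vg a) y Q c r₀ r v p n (min e₁ (σ / 8)) := by
  have key : ∀ i ≤ r, ∀ η : ℝ, 0 < η → ∀ l, r₀ ≤ l → l < i → ∀ j : ℕ, F1 S f (vg a) y Q
      (qJet m ((range l).image c) (c l) j v (p l) (n l - (j : ℕ) * v)) (min e₁ (σ / 8)) η := by
    intro i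
    induction i with
    | zero => exact fun _ η _ l _ hl => absurd hl (Nat.not_lt_zero l)
    | succ i ih =>
      intro hi η hη l hl0 hl j
      have ih := ih (by omega)
      rcases Nat.lt_or_ge l i with h7 | h7
      · exact ih η hη l hl0 h7 j
      · obtain rfl : l = i := by omega
        by_cases hj : j ≤ 1
        · exact (hV η hη l hl0 (by omega) j hj).mono (min_le_left _ _) le_rfl
        · obtain ⟨rk, hrk, hat⟩ := hatt l hl0 (by omega)
          have hs := hch.take hl0 (by omega : l ≤ r)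
          have e1 := jet_hi (Q := Q) (N := n l - (j : ℕ) * v) (j := j) (η := η / 2) (h := η / 2)
            (e₁ := min e₁ (σ / 8)) htm hs hva ha hv0 hvv hrk hat hσ hlam hl1
            (fun l' x y => hlv l' x (by omega)) (fun l' x y => h1 l' x (by omega))
            (fun l' x y => by
              have g1 := h1 l' x (by omega)
              have g2 := h2 l' x (by omega)
              have g3 : min (P₀ l') (p l') ≤ p l' := min_le_right _ _
              linarith)
            (fun l' x y l'' x' y' => by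
              have g1 := h1 l' x (by omega)
              have g2 := h3 l' x (by omega) l'' x' y'
              have g3 : min (P₀ l') (p l') ≤ p l' := min_le_right _ _
              linarith)
            (by linarith [h2 l hl0 (by omega)]) (fun l' x y => by
              linarith [h3 l hl0 (by omega) l' x y])
            (by
              have g1 := h4 l hl0 (by omega)
              have g2 : (2 : ℝ) ≤ j := by exact_mod_cast (by omega : 2 ≤ j)
              have g3 : 2 * (v - v₀) ≤ j * (v - v₀) :=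
                mul_le_mul_of_nonneg_right g2 (by linarith)
              linarith) hf hy (lt_min he₁ (by linarith)) (half_pos hη)
            (exs_qjets fun i' x y j' _ => exs_jet (hrd i' x (by omega))
              (hch.att i' x (by omega)))
            (F1.qjets' htm (half_pos hη) (fun η' hη' i' x y j' _ => ih η' hη' i' x y j'))
          rw [add_halves] at e1
          exact e1.mono (le_min le_rfl (min_le_right _ _)) le_rfl
  exact fun η hη l x y j => key r le_rfl η hη l x y j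

/-- **All jets of one coordinate over the base from the jets of order `0` and `1`**, if `y` knows the
path of the base. -/
theorem jetA_E (htm : TmC S C₀) {σ e₁ rk : ℝ} (hrk : 0 ≤ rk) (hrkv : rk < v) (hva : v ≤ a)
    (ha : a ≤ 1) (hlam : 0 < lam) (hl1 : v + lam ≤ 1)
    (hatt : Att S ((range r₀).image c) (c r₀) v (p r₀) rk)
    (hful : ∀ u : ℝ, v < u → u < 1 → Ful S ((range r₀).image c) v u) (hσ : 0 < σ)
    (h1 : n r₀ + σ ≤ v + lam) (h2 : n r₀ + σ ≤ p r₀ + lam)
    (hf : ∀ (J : ℕ) (F : Fam m J), ∃ φ : α J F → PtT F, ∀ ω, ptr F J ω = φ (f J F ω))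
    (hy : Kn ((range r₀).image c) (v + lam) lam y)
    (hV : ∀ η : ℝ, 0 < η → ∀ j ≤ 1, F1 S f (vg a) y Q
      (qJet m ((range r₀).image c) (c r₀) j v (p r₀) (n r₀ - (j : ℕ) * v)) e₁ η) :
    JetA S f (vg a) y Q c r₀ (r₀ + 1) v p n (min e₁ (σ / 4)) := by
  intro η hη l hl0 hl j
  obtain rfl : l = r₀ := by omega
  by_cases hj : j ≤ 1
  · exact (hV η hη j hj).mono (min_le_left _ _) le_rfl
  · exact (F1.of0 htm (Pool.OWN54.f0_E htm (by omega) hrk hrkv hva ha hlam hl1 hatt hful hf hy hσ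
      (by linarith) (by linarith) hη)).mono (min_le_right _ _) le_rfl

end

end Pool.AJW
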