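import Pool.Agent.H71.AJW.Msh

/-!
# The context from the jets of bounded order, and two families of labels

`ctxK_few`: `ctxN_few` (68) for one degree `K`, from the jets of order `≤ K + 2`. `two_jets`: the jets
over one family of labels from the jets over another one, same window.
-/

set_option autoImplicit false

namespace Pool.AJW

open Finset Real MvPolynomial
open Pool.Agent.H49.Ent Pool.Agent.H32.Dense Pool.STK Pool.KA Pool.KSAT Pool.K2S Pool.PB Pool.GEN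
open Pool.S6C Pool.RCD Pool.LA91 Pool.OWN68
open Pool.GRD (LbP)
open Pool.UNJ (ceI Tub)

/-- **The context is few bits**, from the jets of order `≤ K + 2` only. -/
theorem ctxK_few {m : ℕ} {S : PCl m} {C₀ : ℝ} (htm : TmC S C₀) {c : ℕ → Fin m} {r₀ r : ℕ}
    {w a lam e δ₁ δ₂ : ℝ} {rd p n : ℕ → ℝ} (hw0 : 0 ≤ w) (hwa : w ≤ a) (ha : a ≤ 1)
    (hlam : 0 ≤ lam) (he : 0 < e) (hrd : ∀ i, r₀ ≤ i → i < r → 0 ≤ rd i)
    {U : Type} {Q : Qt m U} {α γ : ∀ J : ℕ, Fam m J → Type}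
    {f : ∀ (J : ℕ) (F : Fam m J), F.Ω → α J F} {y : ∀ (J : ℕ) (F : Fam m J), F.Ω → γ J F}
    (hy : Kn ((range r₀).image c) (w + lam) lam y)
    (K : ℕ) {η : ℕ → ℕ → ℝ}
    (hη : ∑ l ∈ Finset.Ico r₀ r, ∑ j ∈ range (K + 3), η l j ≤ δ₁)
    (hF : ∀ l, r₀ ≤ l → l < r → ∀ j < K + 3, F1 S f (vg a) y Q
      (qJet m ((range l).image c) (c l) j w (p l) (n l - j * w)) e (η l j)) (hδ : δ₁ < δ₂)
    (K₀ R : ℕ) (hR : r ≤ R) :
    Bas S (fun J F A => ∀ (V : Type) (z : PtT F → V) (z' : LnT F → V)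
      (g : V → ℕ → MvPolynomial (Option (Fin m)) ℝ), LbC F c r₀ R K e w rd p A z z' g →
      ∀ u₀ : F.Ω → U, Q.P K₀ e J F A u₀ →
      ∃ (V₁ : Type) (z₁ : F.Ω → V₁), Cl2 (f J F) (vg a J F) A z₁ ∧
        CH (Pool.Agent.H49.Ent.cond F.p A True)
          (fun ω => ctxN F c r₀ r ⌊w * J⌋₊ ⌊(w + lam) * J⌋₊ K z' g n (vg w J F ω))
          (fun ω => (u₀ ω, (z₁ ω, y J F ω))) ≤ δ₂ * J) := by
  classical
  obtain ⟨C, hC, Hjr⟩ := jr_few (K + 2)
  obtain ⟨M, J₁, hcnt⟩ := cnt_jets2 m K (e := e) (w := w) he (fun l j => n l - j * w)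
    (fun i => max (rd i) 0) r (K + 3) (fun i _ => le_max_right _ _)
  have l7 : 0 ≤ Real.log 7 := Real.log_nonneg (by norm_num)
  have hm0 : (0 : ℝ) ≤ m := Nat.cast_nonneg m
  have hr0 : (0 : ℝ) ≤ r := Nat.cast_nonneg r
  have hδ' : 0 < δ₂ - δ₁ := by linarith
  obtain ⟨J₂, hJ₂⟩ := exists_nat_ge ((m * (2 * Real.log 7) + r * C) / (δ₂ - δ₁))
  have hFa : Bas S (fun J F A => ∀ l < r, ∀ j < K + 3, r₀ ≤ l → ∀ (u : F.Ω → U) (u' : F.Ω → ℤ),
      Q.P (max K₀ (max K M)) e J F A u →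
      (qJet m ((range l).image c) (c l) j w (p l) (n l - j * w)).P (max K₀ (max K M)) e J F A u' →
      ∃ (V : Type) (z : F.Ω → V), Cl2 (f J F) (vg a J F) A z ∧
        CH (Pool.Agent.H49.Ent.cond F.p A True) u'
          (fun ω => (u ω, (z ω, y J F ω))) ≤ η l j * J) := by
    refine Bas.all r fun l hl => Bas.all (K + 3) fun j hj => ?_
    by_cases hl0 : r₀ ≤ l
    · refine Bas.mono 0 (hF l hl0 hl j hj (max K₀ (max K M))) ?_
      intro J _ F A h _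
      exact h
    · refine ⟨1, one_pos, 0, fun J _ F A _ h => absurd h hl0⟩
  refine Bas.mono (max J₁ J₂) (hFa.and (Pool.GRW.tmc_bas htm one_pos)) ?_
  rintro J hJ F A ⟨HF, hA, -⟩ V z z' g hlb u₀ hu₀
  have hJ1 : J₁ ≤ J := (le_max_left _ _).trans hJ
  have hJ2 : (J₂ : ℝ) ≤ J := by exact_mod_cast (le_max_right _ _).trans hJ
  have hJ0 : (0 : ℝ) ≤ J := Nat.cast_nonneg J
  have f1 : m * (2 * Real.log 7) + r * C ≤ (δ₂ - δ₁) * J := by
    have := hJ₂.trans hJ2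
    rw [div_le_iff₀ hδ'] at this
    linarith
  obtain ⟨q', hq'⟩ : ∃ q' : F.Ω → ℝ, q' = Pool.Agent.H49.Ent.cond F.p A True := ⟨_, rfl⟩
  have hq'l : IsLaw q' := by
    rw [hq']
    exact isLaw_cond F.isLaw hA
  have h0 := hq'l.nonneg
  rw [← hq']
  have hWJ : ⌊w * J⌋₊ ≤ J := floor_le (hwa.trans ha) J
  obtain ⟨Uj, hUj⟩ : ∃ Uj : ℕ → ℕ → F.Ω → ℤ, Uj = fun (l j : ℕ) ω =>
    ⌊(2 : ℝ) ^ ((n l - j * w) * J) * ojet F (c l) j (g (z' (slam F ⌊w * J⌋₊ ω)) l) ω⌋ :=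
    ⟨_, rfl⟩
  have hz : ∀ l j, ∃ (V₁ : Type) (z₁ : F.Ω → V₁), Cl2 (f J F) (vg a J F) A z₁ ∧
      (r₀ ≤ l → l < r → j < K + 3 → CH q' (Uj l j) (fun ω => (u₀ ω, (z₁ ω, y J F ω))) ≤
        η l j * J) := by
    intro l j
    by_cases hlj : r₀ ≤ l ∧ l < r ∧ j < K + 3
    · obtain ⟨hl0, hl, hj⟩ := hlj
      have h1 := HF l hl j hj hl0 u₀ (Uj l j)
        (Q.mono (le_max_left _ _) le_rfl hu₀) ⟨?_, V, z, z', fun v => g v l, ?_, fun ω _ => by
          rw [hUj]⟩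
      · rw [← hq'] at h1
        obtain ⟨V₁, z₁, hz₁, h1⟩ := h1
        exact ⟨V₁, z₁, hz₁, fun _ _ _ => h1⟩
      · have h2 := hcnt l hl j hj J hJ1 F _ _ _ A V z z' (fun v => g v l) (by
          rw [max_eq_left (hrd l hl0 hl)]
          exact hlb l hl0 (by omega))
        rw [hUj]
        refine h2.trans (Real.exp_le_exp.2 (mul_le_mul_of_nonneg_right ?_ hJ0))
        exact_mod_cast (le_max_right _ _).trans (le_max_right _ _)
      · exact (LbP.of (hlb l hl0 (by omega))).mono (Finset.Subset.refl _)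
          ((le_max_left _ _).trans (le_max_right _ _)) le_rfl
    · exact ⟨Unit, fun _ => (), ⟨⟨fun _ => (), fun _ _ => rfl⟩, fun _ => (), fun _ _ => rfl⟩,
        fun a b c => absurd ⟨a, b, c⟩ hlj⟩
  choose V₁ z₁ hz₁ hH₁ using hz
  refine ⟨∀ l j, V₁ l j, fun ω l j => z₁ l j ω, Cl2.pi fun l => Cl2.pi (hz₁ l), ?_⟩
  obtain ⟨Y, hY⟩ : ∃ Y : F.Ω → U × ((∀ l j, V₁ l j) × γ J F), Y = fun ω =>
    (u₀ ω, ((fun l j => z₁ l j ω), y J F ω)) := ⟨_, rfl⟩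
  rw [← hY]
  obtain ⟨φ, hφ⟩ := hy J F
  have hyy : ∀ ω ω', y J F ω = y J F ω' → F.T ω = F.T ω' ∧
      (∀ i ∈ (range r₀).image c, F.X ⌊(w + lam) * J⌋₊ ω i = F.X ⌊(w + lam) * J⌋₊ ω' i) ∧
      ∀ i ∈ (range r₀).image c, F.D ⌊lam * J⌋₊ ω i = F.D ⌊lam * J⌋₊ ω' i := by
    intro ω ω' e1
    have e2 := congrArg φ e1
    rw [hφ, hφ] at e2
    simp only [Prod.mk.injEq] at e2
    refine ⟨e2.1, fun i hi => ?_, fun i hi => ?_⟩
    · have := congrFun e2.2.1 i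
      simpa only [if_pos hi] using this
    · have := congrFun e2.2.2 i
      simpa only [if_pos hi] using this
  -- the base
  have b1 : CH q' (fun ω => cV0 ((range r₀).image c) ⌊w * J⌋₊ ⌊(w + lam) * J⌋₊ F (vg w J F ω)) Y ≤
      m * (2 * Real.log 7) := by
    refine cV0_few hq'l _ hWJ (n := ⌊(w + lam) * J⌋₊) (l := ⌊lam * J⌋₊) ?_ Y (fun ω ω' e => ?_)
    · have g1 : ((⌊(w + lam) * J⌋₊ : ℕ) : ℝ) ≤ (w + lam) * J :=
        Nat.floor_le (mul_nonneg (by linarith) hJ0)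
      have g2 := Nat.lt_floor_add_one (w * J)
      have g3 := Nat.lt_floor_add_one (lam * J)
      have g4 : ((⌊(w + lam) * J⌋₊ : ℕ) : ℝ) < ((⌊w * J⌋₊ + 1 + ⌊lam * J⌋₊ + 1 : ℕ) : ℝ) := by
        push_cast
        linarith
      have g5 : ⌊(w + lam) * J⌋₊ < ⌊w * J⌋₊ + 1 + ⌊lam * J⌋₊ + 1 := by exact_mod_cast g4
      omega
    · rw [hY] at e
      simp only [Prod.mk.injEq] at e
      exact hyy ω ω' e.2.2
  -- the chain
  have b2 : ∀ l, r₀ ≤ l → l < r → CH q' (fun ω (j : Fin (K + 3)) =>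
      ⌊jr F ⌊w * J⌋₊ (2 ^ (n l * J)) (c l) z' (fun v => g v l) j (slam F ⌊w * J⌋₊ ω)⌋) Y ≤
      (∑ j ∈ range (K + 3), η l j) * J + C := by
    intro l hl0 hl
    have h1 := Hjr hWJ (σ := 2 ^ (n l * J)) (κ := c l) (zl := z') (G := fun v => g v l) hq'l
      (fun v => by
        refine (MvPolynomial.totalDegree_sub _ _).trans (max_le ?_ ?_)
        · exact (totalDegree_X _).le.trans (by omega)
        · exact ((hlb l hl0 (by omega)).deg v).trans (by omega)) Y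
      (fun ω (j : Fin (K + 2 + 1)) => Uj l j ω) (fun ω ω' _ _ e => by
        rw [hY] at e
        simp only [Prod.mk.injEq] at e
        exact (hyy ω ω' e.2.2).1) (fun ω ω' j e => by
        rw [hUj] at e
        refine fl_scale (by positivity) ?_ (Real.rpow_pos_of_pos (by norm_num) _) e
        rw [one_mul]
        exact (scale_le hw0 J j).1)
    refine h1.trans (add_le_add ?_ le_rfl)
    refine (CH_pis h0 _ Y).trans ?_
    have h2 : ∀ j ∈ (univ : Finset (Fin (K + 2 + 1))), CH q' (fun ω => Uj l j ω) Y ≤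
        η l j * J := by
      intro j _
      refine le_trans (CH_mono_cond h0 fun ω ω' _ _ e => ?_) (hH₁ l j hl0 hl j.2)
      rw [hY] at e
      simp only [Prod.mk.injEq] at e ⊢
      exact ⟨e.1, congrFun (congrFun e.2.1 l) j, e.2.2⟩
    refine (Finset.sum_le_sum h2).trans (le_of_eq ?_)
    rw [← Finset.sum_mul, Fin.sum_univ_eq_sum_range (η l) (K + 2 + 1)]
  -- together
  have b3 : CH q' (fun ω => ctxN F c r₀ r ⌊w * J⌋₊ ⌊(w + lam) * J⌋₊ K z' g n (vg w J F ω)) Y ≤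
      CH q' (fun ω => (cV0 ((range r₀).image c) ⌊w * J⌋₊ ⌊(w + lam) * J⌋₊ F (vg w J F ω),
        fun (l : Fin r) => fun (j : Fin (K + 3)) => if r₀ ≤ (l : ℕ) then
          ⌊jr F ⌊w * J⌋₊ (2 ^ (n l * J)) (c l) z' (fun v => g v l) j
            (slam F ⌊w * J⌋₊ ω)⌋ else 0)) Y := by
    refine CH_mono_left h0 fun ω ω' _ _ e => ?_
    simp only [Prod.mk.injEq] at e
    obtain ⟨⟨e1, e2⟩, -⟩ := e
    refine Prod.ext e1 (funext fun l => funext fun j => ?_)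
    dsimp only [ctxN]
    by_cases h : (r₀ ≤ l ∧ l < r) ∧ j < K + 3
    · rw [if_pos h, if_pos h]
      have e3 := congrFun (congrFun e2 ⟨l, h.1.2⟩) ⟨j, h.2⟩
      simp only [if_pos h.1.1] at e3
      exact e3
    · rw [if_neg h, if_neg h]
  have b4 := CH_subadd h0
    (fun ω => cV0 ((range r₀).image c) ⌊w * J⌋₊ ⌊(w + lam) * J⌋₊ F (vg w J F ω))
    (fun ω (l : Fin r) => fun (j : Fin (K + 3)) => if r₀ ≤ (l : ℕ) then
          ⌊jr F ⌊w * J⌋₊ (2 ^ (n l * J)) (c l) z' (fun v => g v l) j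
            (slam F ⌊w * J⌋₊ ω)⌋ else 0) Y
  have b5 : CH q' (fun ω (l : Fin r) => fun (j : Fin (K + 3)) => if r₀ ≤ (l : ℕ) then
          ⌊jr F ⌊w * J⌋₊ (2 ^ (n l * J)) (c l) z' (fun v => g v l) j
            (slam F ⌊w * J⌋₊ ω)⌋ else 0) Y ≤ δ₁ * J + r * C := by
    refine (CH_pis h0 _ Y).trans ?_
    have h2 : ∀ l ∈ (univ : Finset (Fin r)), CH q' (fun ω => fun (j : Fin (K + 3)) =>
        if r₀ ≤ (l : ℕ) then ⌊jr F ⌊w * J⌋₊ (2 ^ (n l * J)) (c l) z' (fun v => g v l) j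
            (slam F ⌊w * J⌋₊ ω)⌋ else 0) Y ≤
        (if r₀ ≤ (l : ℕ) then (∑ j ∈ range (K + 3), η l j) * J else 0) + C := by
      intro l _
      by_cases hl0 : r₀ ≤ (l : ℕ)
      · simp only [if_pos hl0]
        exact b2 l hl0 l.2
      · simp only [if_neg hl0]
        rw [CH_eq_zero h0 fun _ _ _ _ _ => rfl]
        linarith
    refine (Finset.sum_le_sum h2).trans ?_
    rw [Finset.sum_add_distrib, Finset.sum_const, Finset.card_univ, Fintype.card_fin,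
      nsmul_eq_mul, Fin.sum_univ_eq_sum_range (fun l => if r₀ ≤ l then
        (∑ j ∈ range (K + 3), η l j) * (J : ℝ) else 0) r]
    have e1 : ∑ l ∈ range r, (if r₀ ≤ l then (∑ j ∈ range (K + 3), η l j) * (J : ℝ) else 0) =
        ∑ l ∈ Finset.Ico r₀ r, (∑ j ∈ range (K + 3), η l j) * (J : ℝ) := by
      rw [← Finset.sum_filter]
      refine Finset.sum_congr ?_ fun _ _ => rfl
      ext l
      simp only [Finset.mem_filter, Finset.mem_range, Finset.mem_Ico]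
      exact and_comm
    rw [e1, ← Finset.sum_mul]
    have e2 := mul_le_mul_of_nonneg_right hη hJ0
    linarith
  linarith

section two

variable {m : ℕ} {S : PCl m} {C₀ : ℝ} {α γ : ∀ J : ℕ, Fam m J → Type}
  {f : ∀ (J : ℕ) (F : Fam m J), F.Ω → α J F} {y : ∀ (J : ℕ) (F : Fam m J), F.Ω → γ J F}
  {c : ℕ → Fin m} {r₀ r : ℕ} {w a lam : ℝ} {rd p n : ℕ → ℝ}

/-- **The jets over one family of labels from the jets over another one**, same window. -/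
theorem two_jets (htm : TmC S C₀) {σ u₁ : ℝ} {lv : ℕ → ℝ} (hch : Chn S c r₀ r w w u₁ p rd)
    (hwa : w ≤ a) (ha : a ≤ 1) (hlam : 0 < lam) (hl1 : w + lam ≤ 1) (hσ : 0 < σ)
    (hlv : ∀ l, r₀ ≤ l → l < r → 0 < lv l)
    (h1 : ∀ l, r₀ ≤ l → l < r → p l + lv l + σ ≤ n l)
    (h2 : ∀ l, r₀ ≤ l → l < r → lv l + σ ≤ lam)
    (h3 : ∀ l, r₀ ≤ l → l < r → ∀ l', r₀ ≤ l' → l' < l → lv l + σ ≤ lv l')
    (h4 : ∀ l, r₀ ≤ l → l < r → n l + σ ≤ p l + lam)
    (h5 : ∀ l, r₀ ≤ l → l < r → ∀ l', r₀ ≤ l' → l' < l → n l + σ ≤ p l + lv l')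
    (hf : ∀ (J : ℕ) (F : Fam m J), ∃ φ : α J F → PtT F, ∀ ω, ptr F J ω = φ (f J F ω))
    (hy : Kn ((range r₀).image c) (w + lam) lam y) {Jm l j : ℕ} (hl0 : r₀ ≤ l) (hl : l < r)
    (hj : j ≤ Jm) {h : ℝ} (hh : 0 < h) :
    F1 S f (vg a) y (qJets m c r₀ r Jm (fun _ _ => w) (fun l _ => p l)
        (fun l j' => n l - (j' : ℕ) * w))
      (qJet m ((range l).image c) (c l) j w (p l) (n l - (j : ℕ) * w)) (σ / 8) h := by
  have hmin : min lam (w + lam - w) = lam := by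
    have e1 : w + lam - w = lam := by ring
    rw [e1, min_self]
  have key := F1.up hwa ha (jetN_F1 (y := y) (f := f) htm (hch.take hl0 hl.le) (k := c l) (j := j)
    (lv := lv) (p₀ := w + lam) (lam := lam) (σ₀ := σ) (w₁ := w) (w₂ := w) (p₁ := p l) (p₂ := p l)
    (N₁ := n l - (j : ℕ) * w) (N₂ := n l - (j : ℕ) * w)
    (wv := fun _ _ => w) (pv := fun l _ => p l) (Nv := fun l j' => n l - (j' : ℕ) * w)
    (fun _ _ _ _ _ => le_rfl) le_rfl le_rfl (by linarith) hl1 hlam hσ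
    (fun i x y => hlv i x (by omega))
    (fun i x y j' _ => by linarith [h1 i x (by omega)])
    (fun i x y j' _ => by
      rw [hmin, min_self]
      linarith [h2 i x (by omega)])
    (fun i x y j' _ l' x' y' => by
      rw [min_self]
      linarith [h3 i x (by omega) l' x' y'])
    le_rfl
    (by
      rw [hmin, min_self]
      linarith [h4 l hl0 hl])
    (fun l' x y => by
      rw [min_self]
      linarith [h5 l hl0 hl l' x y]) hf hy hh)
  refine F1.pull htm (Q₁ := (qJets m c r₀ l j (fun _ _ => w) (fun l _ => p l)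
    (fun l j' => n l - (j' : ℕ) * w)).prod
      (qJet m ((range l).image c) (c l) j w (p l) (n l - (j : ℕ) * w)))
    (fun u => ((fun i' j' => if i' < l ∧ j' ≤ j then u i' j' else 0), u l j)) ?_ key
  intro K e J F A u hu
  refine ⟨⟨fun i' a b' j' c' => ?_, fun ω hω i' j' h' => ?_⟩, ?_⟩
  · have e1 := hu.1 i' a (b'.trans hl) j' (c'.trans hj)
    show (qJet m _ _ _ _ _ _).P K e J F A (fun ω => if i' < l ∧ j' ≤ j then u ω i' j' else 0)
    simp only [if_pos (show i' < l ∧ j' ≤ j from ⟨b', c'⟩)]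
    exact e1
  · show (if i' < l ∧ j' ≤ j then u ω i' j' else 0) = 0
    split_ifs with h3
    · exact hu.2 ω hω i' j' fun h4 => h' ⟨h4.1, h3.1, h3.2⟩
    · rfl
  · exact hu.1 l hl0 hl j hj

/-- **The context of one family of labels from the jets over another one**, same window. -/
theorem two_ctx (htm : TmC S C₀) {σ u₁ : ℝ} {lv : ℕ → ℝ} (hch : Chn S c r₀ r w w u₁ p rd)
    (hw0 : 0 ≤ w) (hwa : w ≤ a) (ha : a ≤ 1) (hlam : 0 < lam) (hl1 : w + lam ≤ 1) (hσ : 0 < σ)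
    (hlv : ∀ l, r₀ ≤ l → l < r → 0 < lv l)
    (h1 : ∀ l, r₀ ≤ l → l < r → p l + lv l + σ ≤ n l)
    (h2 : ∀ l, r₀ ≤ l → l < r → lv l + σ ≤ lam)
    (h3 : ∀ l, r₀ ≤ l → l < r → ∀ l', r₀ ≤ l' → l' < l → lv l + σ ≤ lv l')
    (h4 : ∀ l, r₀ ≤ l → l < r → n l + σ ≤ p l + lam)
    (h5 : ∀ l, r₀ ≤ l → l < r → ∀ l', r₀ ≤ l' → l' < l → n l + σ ≤ p l + lv l')
    (hf : ∀ (J : ℕ) (F : Fam m J), ∃ φ : α J F → PtT F, ∀ ω, ptr F J ω = φ (f J F ω))
    (hy : Kn ((range r₀).image c) (w + lam) lam y) {K R : ℕ} (hR : r ≤ R) {δ : ℝ} (hδ : 0 < δ)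
    {e : ℝ} (he : 0 < e) (hle : e ≤ σ / 8) {rd' : ℕ → ℝ}
    (hrd' : ∀ i, r₀ ≤ i → i < r → 0 ≤ rd' i) :
    FwL S f (vg a) y (qJets m c r₀ r (K + 2) (fun _ _ => w) (fun l _ => p l)
        (fun l j' => n l - (j' : ℕ) * w)) c r₀ R K w rd' p (ctx c r₀ r K w lam n) e δ := by
  intro K₀
  have h6 : (0 : ℝ) < (r + 1) * (K + 3) := by positivity
  refine ctxK_few htm hw0 hwa ha hlam.le he hrd' hy K (η := fun _ _ => δ / 2 / ((r + 1) * (K + 3)))
    (δ₁ := δ / 2) ?_ (fun l x y j hj => (two_jets htm hch hwa ha hlam hl1 hσ hlv h1 h2 h3 h4 h5 hf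
      hy x y (by omega) (by positivity)).mono hle le_rfl) (by linarith) K₀ R hR
  rw [Finset.sum_const, Finset.sum_const, Nat.card_Ico, Finset.card_range, nsmul_eq_mul,
    nsmul_eq_mul]
  have h2 : ((r - r₀ : ℕ) : ℝ) ≤ r + 1 := by
    have : ((r - r₀ : ℕ) : ℝ) ≤ r := by exact_mod_cast Nat.sub_le r r₀
    linarith
  push_cast
  calc ((r - r₀ : ℕ) : ℝ) * ((K + 3) * (δ / 2 / ((r + 1) * (K + 3)))) ≤
        (r + 1) * ((K + 3) * (δ / 2 / ((r + 1) * (K + 3)))) :=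
        mul_le_mul_of_nonneg_right h2 (by positivity)
    _ = δ / 2 := by
        field_simp

end two

end Pool.AJW
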