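import Pool.Agent.H68.OWN.Ni
import Pool.Agent.H71.AJW.Rel

/-!
# All jets of the own path over a nested chain

`path_nsa`: the own paths of the chain `c r₀, …, c (r - 1)` to `n l` digits and the own path of
`c r` to `p r + q` digits are few bits given the ball, relative to a quantity, if the rows of the
own height of `c r` are not full (`NfC`), the jets of the chain are few bits (`JetV`) and the value of
the own path of `c r` is few bits. The chain may be empty (`r₀ = r`).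
-/

set_option autoImplicit false

namespace Pool.AJW

open Finset Real MvPolynomial
open Pool.Agent.H49.Ent Pool.Agent.H32.Dense Pool.STK Pool.KA Pool.KSAT Pool.K2S Pool.PB Pool.GEN
open Pool.S6C Pool.RCD Pool.LA91 Pool.OWN68
open Pool.GRD (LbP)
open Pool.UNJ (ceI Tub)

variable {J : ℕ}

/-- Few bits of a quantity, relative to another one. -/
theorem F1.of_few0 {m : ℕ} {S : PCl m} {C₀ : ℝ} (htm : TmC S C₀) {U U' : Type}
    {α β γ : ∀ J : ℕ, Fam m J → Type} {f : ∀ (J : ℕ) (F : Fam m J), F.Ω → α J F}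
    {g : ∀ (J : ℕ) (F : Fam m J), F.Ω → β J F} {y : ∀ (J : ℕ) (F : Fam m J), F.Ω → γ J F}
    {Q : Qt m U} {Q' : Qt m U'} (H : Few0 S f g y Q') {η : ℝ} (hη : 0 < η) :
    ∃ e : ℝ, 0 < e ∧ F1 S f g y Q Q' e η := by
  obtain ⟨e, he, h⟩ := (few0_iff.1 H) η hη
  exact ⟨e, he, F1.of0 htm h⟩

/-- The smallest of finitely many positive numbers. -/
theorem min_fin (N : ℕ) {P : ℕ → ℝ → Prop} (hP : ∀ i e e', P i e → 0 < e' → e' ≤ e → P i e')
    (h : ∀ i < N, ∃ e : ℝ, 0 < e ∧ P i e) : ∃ e : ℝ, 0 < e ∧ ∀ i < N, P i e := by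
  induction N with
  | zero => exact ⟨1, one_pos, fun i hi => absurd hi (Nat.not_lt_zero i)⟩
  | succ N ih =>
    obtain ⟨e₁, h1, h2⟩ := ih fun i hi => h i (by omega)
    obtain ⟨e₂, h3, h4⟩ := h N (Nat.lt_succ_self N)
    have h5 : 0 < min e₁ e₂ := lt_min h1 h3
    refine ⟨min e₁ e₂, h5, fun i hi => ?_⟩
    rcases Nat.lt_or_ge i N with h | h
    · exact hP i _ _ (h2 i h) h5 (min_le_left _ _)
    · obtain rfl : i = N := by omega
      exact hP i _ _ h4 h5 (min_le_right _ _)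

/-- **All jets of the own path over a nested chain.** -/
theorem path_nsa (K : ℕ) {h : ℝ} (hh : 0 < h) (hh1 : h ≤ 1) {ε : ℝ}
    (hε : 0 < ε) : ∃ δ : ℝ, 0 < δ ∧ ∀ {m : ℕ} {S : PCl m} {C₀ : ℝ} (_ : TmC S C₀)
    {c : ℕ → Fin m} {r₀ r : ℕ} (_ : r₀ ≤ r) {w a q lam e₁ : ℝ} {rd p n : ℕ → ℝ}
    (_ : 0 ≤ w) (_ : w ≤ a) (_ : a ≤ 1) (_ : 0 < q) (_ : w + q ≤ 1) (_ : 0 ≤ lam)
    (_ : ∀ i, r₀ ≤ i → i ≤ r → 0 ≤ rd i)
    {U₀ : Type} {Qu : Qt m U₀} {α γ : ∀ J : ℕ, Fam m J → Type}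
    {f : ∀ (J : ℕ) (F : Fam m J), F.Ω → α J F} {y : ∀ (J : ℕ) (F : Fam m J), F.Ω → γ J F}
    (_ : ∀ (J : ℕ) (F : Fam m J), ∃ φ : α J F → PtT F, ∀ ω, ptr F J ω = φ (f J F ω))
    (_ : Kn ((range r₀).image c) (w + lam) lam y) (_ : 0 < e₁),
    JetV S f (vg a) y Qu c r₀ r w p n e₁ (δ * q / 2) →
    F1 S f (vg a) y Qu (qJet m ((range r).image c) (c r) 0 w (p r) (p r + q)) e₁ (δ * q) →
    (∀ q' : ℝ, 0 ≤ q' → q' ≤ q → NfC S c r₀ r w q' h (δ * q / 2) (w + lam) rd p n) →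
    ∃ e₀ : ℝ, 0 < e₀ ∧ ∀ e : ℝ, 0 < e → e ≤ e₀ → ∀ K₀ : ℕ,
      Bas S (fun J F A => ∀ (V : Type) (z : PtT F → V) (z' : LnT F → V)
        (g : V → ℕ → MvPolynomial (Option (Fin m)) ℝ), LbC F c r₀ (r + 1) K e w rd p A z z' g →
        ∀ u₀ : F.Ω → U₀, Qu.P K₀ e J F A u₀ →
        ∃ (V₁ : Type) (z₁ : F.Ω → V₁), Cl2 (f J F) (vg a J F) A z₁ ∧
          CH (Pool.Agent.H49.Ent.cond F.p A True)
            (fun ω => ((z' (vg w J F ω), (vg w J F ω).2),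
              (ctxN F c r₀ r ⌊w * J⌋₊ ⌊(w + lam) * J⌋₊ K z' g n (vg w J F ω),
              fun j : Fin (K + 3) => ⌊jr F ⌊w * J⌋₊ (2 ^ ((p r + q) * J)) (c r) z'
                (fun v => g v r) j (vg w J F ω)⌋)))
            (fun ω => (u₀ ω, (z₁ ω, y J F ω))) ≤ ε * q * J) := by
  classical
  obtain ⟨δ, hδ, N₀, hN₀, H⟩ := path_ra K hh hh1 hε
  refine ⟨δ, hδ, ?_⟩
  intro m S C₀ htm c r₀ r hr w a q lam e₁ rd p n hw0 hwa ha hq hwq hlam hrd U₀ Qu α γ f y hf hy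
    he₁ hV hval hnf
  have hN0 : (0 : ℝ) < N₀ := by exact_mod_cast hN₀
  have hw1 : w < 1 := by linarith
  have hδq : 0 < δ * q := by positivity
  have hqi : ∀ i ≤ N₀, 0 ≤ q - q * i / N₀ ∧ q - q * i / N₀ ≤ q := by
    intro i hi
    have h1 : (i : ℝ) ≤ N₀ := by exact_mod_cast hi
    have h2 : q * i / N₀ ≤ q := by
      rw [div_le_iff₀ hN0]
      exact mul_le_mul_of_nonneg_left h1 hq.le
    have h3 : 0 ≤ q * i / N₀ := by positivity
    constructor <;> linarith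
  -- the rows
  obtain ⟨e₂, he₂, hnf2⟩ := min_fin (N₀ + 1) (P := fun i e₀ => ∀ e : ℝ, 0 < e → e ≤ e₀ →
    ∀ K : ℕ, ∀ x : ℝ, 0 ≤ x → x ≤ q - q * i / N₀ →
    Bas S (fun J F A => ∀ (V : Type) (z : PtT F → V) (z' : LnT F → V)
      (g : V → ℕ → MvPolynomial (Option (Fin m)) ℝ), LbC F c r₀ (r + 1) K e w rd p A z z' g →
      CH (Pool.Agent.H49.Ent.cond F.p A True)
        (fun ω => ⌊(2 : ℝ) ^ ((p r + (q - q * i / N₀)) * J) *
          hgt F (c r) z' ⌊w * J⌋₊ (fun v => g v r) ω⌋)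
        (fun ω => (⌊(2 : ℝ) ^ ((p r + x) * J) *
          hgt F (c r) z' ⌊w * J⌋₊ (fun v => g v r) ω⌋,
          (z' (slam F ⌊w * J⌋₊ ω), (hts F c r₀ r z' ⌊w * J⌋₊ g n ω,
            (bI ((range r₀).image c) (w + lam) J F ω, F.W ω))))) ≤
        ((1 - h) * ((q - q * i / N₀) - x) * Real.log 2 + δ * q / 2) * J))
    (fun i e e' h1 h2 h3 e'' h4 h5 => h1 e'' h4 (h5.trans h3)) (fun i hi => by
      obtain ⟨h1, h2⟩ := hqi i (by omega)
      exact hnf _ h1 h2)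
  -- the natural jets
  obtain ⟨e₃, he₃, hnat⟩ := min_fin (K + 3) (P := fun j e => F1 S f (vg a) y Qu
    (qJet m ((range r).image c) (c r) j w (p r) (p r - j * w)) e (δ * q))
    (fun j e e' h1 _ h3 => h1.mono h3 le_rfl) (fun j _ => F1.of_few0 htm (few0_jet htm hw0 hw1
      (by linarith) f (vg a) y) hδq)
  refine ⟨min (min e₁ e₂) e₃, lt_min (lt_min he₁ he₂) he₃, fun e he hle K₀ => ?_⟩
  have h1e : e ≤ e₁ := hle.trans ((min_le_left _ _).trans (min_le_left _ _))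
  have h2e : e ≤ e₂ := hle.trans ((min_le_left _ _).trans (min_le_right _ _))
  have h3e : e ≤ e₃ := hle.trans (min_le_right _ _)
  have hyT : ∀ (J : ℕ) (F : Fam m J), ∃ φ : γ J F → ℕ, ∀ ω, F.T ω = φ (y J F ω) := by
    intro J F
    obtain ⟨φ, hφ⟩ := hy J F
    exact ⟨fun x => (φ x).1, fun ω => (congrArg Prod.fst (hφ ω)).symm⟩
  have hVe : JetV S f (vg a) y Qu c r₀ r w p n e (δ * q / 2) := fun K => by
    obtain ⟨η, h1, h2⟩ := hV K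
    exact ⟨η, h1, fun l a b j hj => (h2 l a b j hj).mono h1e le_rfl⟩
  have key := H htm (I := (range r).image c) (κ := c r) (w := w) (a := a) (p := p r) (q := q)
    (r := rd r) hw0 hwa ha hq hwq (hrd r hr le_rfl) (Qu := Qu) hf hyT he
    (fun J F A V C z z' G cc => ∃ g : V → ℕ → MvPolynomial (Option (Fin m)) ℝ,
      LbC F c r₀ (r + 1) K e w rd p A z z' g ∧ G = (fun v => g v r) ∧
      ∃ (φ : C → (Fin m → ℤ × ℤ) × (ℕ → ℕ → ℤ)) (ψ : (Fin m → ℤ × ℤ) × (ℕ → ℕ → ℤ) → C),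
        (∀ x, ctxN F c r₀ r ⌊w * J⌋₊ ⌊(w + lam) * J⌋₊ K z' g n x = φ (cc x)) ∧
        ∀ x, cc x = ψ (ctxN F c r₀ r ⌊w * J⌋₊ ⌊(w + lam) * J⌋₊ K z' g n x))
    (by
      rintro J F A V C z z' G cc ⟨g, hlb, rfl, -⟩
      exact hlb r hr (Nat.lt_succ_self r))
    (by
      rintro J F A B V C z z' G cc hBA ⟨g, hlb, hG, hcc⟩
      exact ⟨g, hlb.sub hBA, hG, hcc⟩) ?_ ?_ (hval.mono h1e le_rfl)
      (fun j hj _ => (hnat j hj).mono h3e le_rfl) K₀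
  · refine Bas.mono 0 key ?_
    intro J _ F A h1 V z z' g hlb u₀ hu₀
    exact h1 V _ z z' (fun v => g v r)
      (fun x => ctxN F c r₀ r ⌊w * J⌋₊ ⌊(w + lam) * J⌋₊ K z' g n x)
      ⟨g, hlb, rfl, fun x => x, fun x => x, fun _ => rfl, fun _ => rfl⟩ u₀ hu₀
  · -- the context
    intro K₁
    refine Bas.mono 0 ((ctxN_few htm hw0 hwa ha hlam he (fun i a b => hrd i a b.le) hy hVe
      (show δ * q / 2 < δ * q by linarith) K K₁ (r + 1) (by omega)).and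
      (Pool.GRW.tmc_bas htm one_pos)) ?_
    rintro J - F A ⟨h1, hA, -⟩ V C z z' G cc ⟨g, hlb, hG, φ, ψ, hφ, hψ⟩ u₀ hu₀
    obtain ⟨V₁, z₁, hz₁, h2⟩ := h1 V z z' g hlb u₀ hu₀
    refine ⟨V₁, z₁, hz₁, le_trans (CH_mono_left (isLaw_cond F.isLaw hA).nonneg
      fun ω ω' _ _ e => ?_) h2⟩
    show cc (vg w J F ω) = cc (vg w J F ω')
    rw [hψ, hψ]
    exact congrArg ψ (Prod.ext_iff.mp e).1
  · -- the rows
    intro i hi x hx0 hxq
    have l7 : 0 ≤ Real.log 7 := Real.log_nonneg (by norm_num)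
    have lK : 0 ≤ Real.log (4 * ((K : ℝ) + 3) + 3) := Real.log_nonneg (by
      have : (0 : ℝ) ≤ K := Nat.cast_nonneg K
      linarith)
    obtain ⟨J₂, hJ₂⟩ := exists_nat_ge ((m * Real.log 7 + r * Real.log (4 * (K + 3) + 3)) /
      (δ * q / 2))
    obtain ⟨qi, hqi'⟩ : ∃ qi : ℝ, qi = q - q * i / N₀ := ⟨_, rfl⟩
    have hnf3 := hnf2 i (by omega) e he h2e K x hx0 hxq
    rw [← hqi'] at hnf3 ⊢
    refine Bas.mono J₂ (hnf3.and (Pool.GRW.tmc_bas htm one_pos)) ?_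
    rintro J hJ F A ⟨h1, hA, -⟩ V C z z' G cc ⟨g, hlb, rfl, φ, ψ, hφ, hψ⟩
    have hJ2 : (J₂ : ℝ) ≤ J := by exact_mod_cast hJ
    have f1 : m * Real.log 7 + r * Real.log (4 * (K + 3) + 3) ≤ δ * q / 2 * J := by
      have := hJ₂.trans hJ2
      rw [div_le_iff₀ (by positivity)] at this
      linarith
    have h2 := h1 V z z' g hlb
    obtain ⟨q', hq'⟩ : ∃ q' : F.Ω → ℝ, q' = Pool.Agent.H49.Ent.cond F.p A True := ⟨_, rfl⟩
    have hq'l : IsLaw q' := by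
      rw [hq']
      exact isLaw_cond F.isLaw hA
    have h0 := hq'l.nonneg
    rw [← hq'] at h2 ⊢
    have hWJ : ⌊w * J⌋₊ ≤ J := floor_le (hwa.trans ha) J
    obtain ⟨Hn, hHn⟩ : ∃ Hn : F.Ω → ℤ, Hn = fun ω => ⌊(2 : ℝ) ^ ((p r + qi) * J) *
      hgt F (c r) z' ⌊w * J⌋₊ (fun v => g v r) ω⌋ := ⟨_, rfl⟩
    obtain ⟨Rx, hRx⟩ : ∃ Rx : F.Ω → ℤ, Rx = fun ω => ⌊(2 : ℝ) ^ ((p r + x) * J) *
      hgt F (c r) z' ⌊w * J⌋₊ (fun v => g v r) ω⌋ := ⟨_, rfl⟩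
    obtain ⟨Y, hY⟩ : ∃ Y : F.Ω → ℤ × (V × (C × (ℕ × F.ζ))), Y = fun ω =>
      (Rx ω, (z' (slam F ⌊w * J⌋₊ ω), (cc (slam F ⌊w * J⌋₊ ω), F.W ω))) := ⟨_, rfl⟩
    obtain ⟨ht, hht⟩ : ∃ ht : F.Ω → ℕ → ℤ, ht = fun ω => hts F c r₀ r z' ⌊w * J⌋₊ g n ω :=
      ⟨_, rfl⟩
    obtain ⟨B, hB⟩ : ∃ B : F.Ω → Fin m → ℤ, B = bI ((range r₀).image c) (w + lam) J F := ⟨_, rfl⟩
    have s1 := CH_le_add h0 Hn (fun ω => (ht ω, B ω)) Y
    have s2 := CH_subadd h0 ht B Y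
    have s3 : CH q' ht Y ≤ r * Real.log (4 * (K + 3) + 3) := by
      rw [hht]
      refine hts_few hWJ (fun l a b v => (hlb l a (by omega)).deg v) hq'l Y
        (fun ω => φ (cc (slam F ⌊w * J⌋₊ ω))) (Un := ⌊(w + lam) * J⌋₊)
        (fun ω => (hφ _).symm) fun ω ω' e => ?_
      rw [hY] at e
      simp only [Prod.mk.injEq] at e
      obtain ⟨-, -, e3, e4⟩ := e
      exact ⟨(Prod.ext_iff.mp e4).1, congrArg φ e3⟩
    have s4 : CH q' B Y ≤ m * Real.log 7 := by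
      rw [hB]
      refine le_trans (CH_mono_cond h0 fun ω ω' _ _ e => ?_)
        (cV0_pos hq'l ((range r₀).image c) hWJ ⌊(w + lam) * J⌋₊)
      rw [hY] at e
      simp only [Prod.mk.injEq] at e ⊢
      obtain ⟨-, -, e3, e4⟩ := e
      have e5 := hφ (slam F ⌊w * J⌋₊ ω)
      have e6 := hφ (slam F ⌊w * J⌋₊ ω')
      rw [e3, ← e6] at e5
      exact ⟨congrArg Prod.fst e5, e4⟩
    have s5 : CH q' Hn (fun ω => ((ht ω, B ω), Y ω)) ≤
        ((1 - h) * (qi - x) * Real.log 2 + δ * q / 2) * J := by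
      refine le_trans (CH_mono_cond h0 fun ω ω' _ _ e => ?_) (hHn ▸ h2)
      rw [hY] at e
      simp only [Prod.mk.injEq] at e ⊢
      obtain ⟨⟨e1, e2⟩, e3, e4, e5, e6⟩ := e
      rw [hRx] at e3
      rw [hht] at e1
      rw [hB] at e2
      exact ⟨e3, e4, e1, e2, e6⟩
    have s6 : CH q' Hn Y ≤ ((1 - h) * (qi - x) * Real.log 2 + δ * q) * J := by
      have e7 : ((1 - h) * (qi - x) * Real.log 2 + δ * q) * J =
        ((1 - h) * (qi - x) * Real.log 2 + δ * q / 2) * J + δ * q / 2 * J := by ring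
      rw [e7]
      linarith
    rw [hHn, hY, hRx] at s6
    exact s6

end Pool.AJW
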