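import Pool.Agent.H71.AJW.Jet
import Pool.Agent.H71.AJW.Nstb

/-!
# All jets of the own path over a finer window, for the labels of one family

`jet_wb`: `jet_w` of `H71/AJW/Jet` with the context (own paths of the chain) few bits for the labels
of one family only. So the theorem can be used for several coordinates one after the other.
-/

set_option autoImplicit false

namespace Pool.AJW

open Finset Real MvPolynomial
open Pool.Agent.H49.Ent Pool.Agent.H32.Dense Pool.STK Pool.KA Pool.KSAT Pool.K2S Pool.PB Pool.GEN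
open Pool.S6C Pool.RCD Pool.LA91 Pool.OWN68
open Pool.GRD (LbP)
open Pool.UNJ (ceI Tub)

variable {m : ℕ} {S : PCl m} {C₀ : ℝ}

/-- **The value of the own path over the window `v`**, for the labels of one family. -/
theorem JetW.valb {c : ℕ → Fin m} {r₀ r : ℕ} {v w lam q ρ g₀ : ℝ} {p s n lv rd : ℕ → ℝ} {K : ℕ}
    (htm : TmC S C₀) (H : JetW S c r₀ r v w lam q ρ g₀ p s n lv rd K) {U₀ : Type}
    {Qu : Qt m U₀} {α γ : ∀ J : ℕ, Fam m J → Type} {f : ∀ (J : ℕ) (F : Fam m J), F.Ω → α J F}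
    {y : ∀ (J : ℕ) (F : Fam m J), F.Ω → γ J F} {a : ℝ} (hwa : w ≤ a) (ha : a ≤ 1)
    (hf : ∀ (J : ℕ) (F : Fam m J), ∃ φ : α J F → PtT F, ∀ ω, ptr F J ω = φ (f J F ω))
    (hy : Kn0 ((range r₀).image c) (v + lam) y) {δ₁ δ₂ e : ℝ} (he : 0 < e) (he8 : e ≤ ρ / 8)
    (hctx : FwL S f (vg a) y Qu c r₀ (r + 1) K v rd p (ctx c r₀ r K v lam n) e δ₁)
    (hδ : δ₁ < δ₂) :
    FwL S f (vg a) y Qu c r₀ (r + 1) K v rd p (hgf c r v (p r + q)) e δ₂ := by
  classical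
  obtain ⟨u₁, rw, hch⟩ := H.chn
  have hρ := H.ρ0
  have hvw := H.vw
  have hwp : w < v + lam := by linarith [H.mid, H.q0]
  obtain ⟨rk, hrk, hatt⟩ := H.att
  obtain ⟨h', hh'⟩ : ∃ h' : ℝ, h' = (δ₂ - δ₁) / 4 := ⟨_, rfl⟩
  have hh0 : 0 < h' := by rw [hh']; linarith
  have hyT : ∀ (J : ℕ) (F : Fam m J), ∃ φ : γ J F → ℕ, ∀ ω, F.T ω = φ (y J F ω) := by
    intro J F
    obtain ⟨φ, hφ⟩ := hy J F
    exact ⟨fun x => (φ x).1, fun ω => (congrArg Prod.fst (hφ ω)).symm⟩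
  obtain ⟨Kw, Mw, hx⟩ := exs_jet (j := 0) (N := p r + q) hrk hatt e he
  -- the natural value at `w`
  have a1 : F0 S f (vg a) y (qJet m ((range r).image c) (c r) 0 w (s r) (p r + q)) e h' :=
    (few0_room htm H.w0 H.w1 hρ (by
      rw [Nat.cast_zero, zero_mul, add_zero]
      exact H.val) _ _ _ hh0).mono (by linarith) le_rfl
  have a3 : F1 S f (vg a) y
      ((qJets m c r₀ r 0 (fun _ _ => v) (fun l _ => p l) (fun l _ => n l)).prod
        (qJet m ((range r).image c) (c r) 0 w (s r) (p r + q)))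
      (qJet m ((range r).image c) (c r) 0 v (p r) (p r + q)) e h' := by
    refine (F1.up hwa ha (hgt_F1 htm hch (lv := lv) (p₀ := v + lam) (σ₀ := ρ)
      (wv := fun _ _ => v) (pv := fun l _ => p l) (Nv := fun l _ => n l)
      (fun _ _ _ _ _ => H.vw) le_rfl H.vw hwp H.l1.le hρ H.lv0 H.dig H.bas H.nst le_rfl ?_ ?_
      hf hy hh0)).mono he8 le_rfl
    · rw [H.minr]
      linarith [H.mid]
    · intro l hl0 hl
      rw [H.minr]
      linarith [H.lvq hl0 hl]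
  obtain ⟨M₁, J₁, hc1⟩ := cnt_jets m K (e := e) (w := v) he n (fun i => max (rd i) 0) r
    (fun i _ => le_max_right _ _)
  obtain ⟨M₂, J₂, hc2⟩ := cnt_jet m K 0 (N := p r + q) (w := v) (H.rd0 r H.hr le_rfl).1 he
  have lK : 0 ≤ Real.log (4 * ((K : ℝ) + 3) + 3) := Real.log_nonneg (by
    have : (0 : ℝ) ≤ K := Nat.cast_nonneg K
    linarith)
  obtain ⟨J₃, hJ₃⟩ := exists_nat_ge (r * Real.log (4 * (K + 3) + 3) / h')
  intro K₀
  obtain ⟨K₁, hK₁⟩ : ∃ K₁ : ℕ, K₁ = K₀ + K + Kw + M₁ + M₂ := ⟨_, rfl⟩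
  refine Bas.mono (max (max J₁ J₂) J₃) (((hctx K₀).and (a1 K₁)).and
    ((a3 K₁).and (hx.and (Pool.GRW.tmc_bas htm one_pos)))) ?_
  rintro J hJ F A ⟨⟨HC, HN⟩, HT, ⟨uw, huw, -⟩, hA, -⟩ V z z' g hlb u₀ hu₀
  have hJ1 : J₁ ≤ J := (le_max_left _ _).trans ((le_max_left _ _).trans hJ)
  have hJ2 : J₂ ≤ J := (le_max_right _ _).trans ((le_max_left _ _).trans hJ)
  have hJ3 : (J₃ : ℝ) ≤ J := by exact_mod_cast (le_max_right _ _).trans hJ
  have hJ0 : (0 : ℝ) ≤ J := Nat.cast_nonneg J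
  have f1 : r * Real.log (4 * (K + 3) + 3) ≤ h' * J := by
    have := hJ₃.trans hJ3
    rw [div_le_iff₀ hh0] at this
    linarith
  obtain ⟨q', hq'⟩ : ∃ q' : F.Ω → ℝ, q' = Pool.Agent.H49.Ent.cond F.p A True := ⟨_, rfl⟩
  have hq'l : IsLaw q' := by
    rw [hq']
    exact isLaw_cond F.isLaw hA
  have h0 := hq'l.nonneg
  have hvJ : ⌊v * J⌋₊ ≤ J := floor_le (hvw.trans (hwa.trans ha)) J
  obtain ⟨V₁, z₁, hz₁, h1⟩ := HC V z z' g hlb u₀ hu₀
  obtain ⟨V₂, z₂, hz₂, h2⟩ := HN uw ((qJet m _ _ _ _ _ _).mono (by omega) le_rfl huw)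
  obtain ⟨ht, hht⟩ : ∃ ht : F.Ω → ℕ → ℤ, ht = fun ω => hts F c r₀ r z' ⌊v * J⌋₊ g n ω :=
    ⟨_, rfl⟩
  obtain ⟨V₃, z₃, hz₃, h3⟩ := HT (fun ω => (fun i j' => if j' = 0 then ht ω i else 0, uw ω))
    (hgf c r v (p r + q) J F V z' g)
    ⟨by
      rw [hht]
      refine (qJets m _ _ _ _ _ _ _).mono ?_ le_rfl (qJets_hts (M := M₁) (Nat.le_succ r) hlb
        fun i hi0 hi => ?_)
      · exact max_le (by omega) (by omega)
      · exact hc1 i hi J hJ1 F _ _ _ A V z z' (fun v => g v i) (by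
          rw [max_eq_left (H.rd0 i hi0 hi.le).1]
          exact hlb i hi0 (by omega)), (qJet m _ _ _ _ _ _).mono (by omega) le_rfl huw⟩
    ⟨by
      refine (hc2 J hJ2 F _ _ _ A V z z' (fun v => g v r)
        (hlb r H.hr (Nat.lt_succ_self r))).trans
        (Real.exp_le_exp.2 (mul_le_mul_of_nonneg_right ?_ hJ0))
      exact_mod_cast (by omega : M₂ ≤ K₁), V, z, z', fun v => g v r,
      (LbP.of (hlb r H.hr (Nat.lt_succ_self r))).mono (Finset.Subset.refl _) (by omega) le_rfl,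
      fun ω _ => rfl⟩
  refine ⟨_, fun ω => (z₁ ω, (z₂ ω, z₃ ω)), hz₁.join (hz₂.join hz₃), ?_⟩
  rw [← hq'] at h1 h2 h3 ⊢
  obtain ⟨X, hX⟩ : ∃ X : F.Ω → (Fin m → ℤ × ℤ) × (ℕ → ℕ → ℤ), X = ctx c r₀ r K v lam n J F V z' g :=
    ⟨_, rfl⟩
  obtain ⟨Hf, hHf⟩ : ∃ Hf : F.Ω → ℤ, Hf = hgf c r v (p r + q) J F V z' g := ⟨_, rfl⟩
  rw [← hX] at h1
  rw [← hHf] at h3 ⊢
  obtain ⟨Y, hY⟩ : ∃ Y : F.Ω → U₀ × ((V₁ × (V₂ × V₃)) × γ J F), Y = fun ω =>
    (u₀ ω, ((z₁ ω, (z₂ ω, z₃ ω)), y J F ω)) := ⟨_, rfl⟩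
  rw [← hY]
  have s1 := CH_le_add h0 Hf (fun ω => (X ω, (ht ω, uw ω))) Y
  have s2 := CH_chain h0 (fun ω => (ht ω, uw ω)) X Y
  have s3 : CH q' (fun ω => (X ω, (ht ω, uw ω))) Y =
      CH q' (fun ω => ((ht ω, uw ω), X ω)) Y :=
    CH_congr h0 (fun ω ω' _ _ e => by
      simp only [Prod.mk.injEq] at e ⊢
      tauto) (fun ω ω' _ _ e => by
      simp only [Prod.mk.injEq] at e ⊢
      tauto) (fun _ _ _ _ e => e) (fun _ _ _ _ e => e)
  have s4 := CH_subadd h0 ht uw (fun ω => (X ω, Y ω))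
  have s5 : CH q' ht (fun ω => (X ω, Y ω)) ≤ r * Real.log (4 * (K + 3) + 3) := by
    rw [hht]
    obtain ⟨φ, hφ⟩ := hyT J F
    refine hts_few hvJ (fun l a b v => (hlb l a (by omega)).deg v) hq'l (fun ω => (X ω, Y ω))
      X (Un := ⌊(v + lam) * J⌋₊) (fun ω => by rw [hX]; rfl) fun ω ω' e => ?_
    have e1 := (Prod.ext_iff.mp e).2
    rw [hY] at e1
    simp only [Prod.mk.injEq] at e1
    exact ⟨by rw [hφ, hφ, e1.2.2], (Prod.ext_iff.mp e).1⟩
  have s6 : CH q' X Y ≤ δ₁ * J := by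
    refine le_trans (CH_mono_cond h0 fun ω ω' _ _ e => ?_) h1
    rw [hY] at e
    simp only [Prod.mk.injEq] at e ⊢
    exact ⟨e.1, e.2.1.1, e.2.2⟩
  have s7 : CH q' uw (fun ω => (X ω, Y ω)) ≤ h' * J := by
    refine le_trans (CH_mono_cond h0 fun ω ω' _ _ e => ?_) h2
    rw [hY] at e
    simp only [Prod.mk.injEq] at e ⊢
    exact ⟨e.2.2.1.2.1, e.2.2.2⟩
  have s8 : CH q' Hf (fun ω => ((X ω, (ht ω, uw ω)), Y ω)) ≤ h' * J := by
    refine le_trans (CH_mono_cond h0 fun ω ω' _ _ e => ?_) h3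
    rw [hY] at e
    simp only [Prod.mk.injEq] at e ⊢
    obtain ⟨⟨e1, e2, e3⟩, e4, ⟨e5, e6, e7⟩, e8⟩ := e
    exact ⟨⟨by rw [e2], e3⟩, e7, e8⟩
  have s9 : δ₂ * J = δ₁ * J + 4 * (h' * J) := by
    rw [hh']
    ring
  have s10 : 0 ≤ h' * J := by positivity
  linarith

/-- **All jets of the own path over a finer window**, for the labels of one family. -/
theorem jet_wb (K : ℕ) {h : ℝ} (hh : 0 < h) (hh1 : h ≤ 1) {ε : ℝ}
    (hε : 0 < ε) : ∃ δ : ℝ, 0 < δ ∧ ∀ {m : ℕ} {S : PCl m} {C₀ : ℝ} (_ : TmC S C₀)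
    {c : ℕ → Fin m} {r₀ r : ℕ} {v w lam q ρ g₀ : ℝ} {p s n lv rd : ℕ → ℝ}
    (_ : JetW S c r₀ r v w lam q ρ g₀ p s n lv rd K) (_ : (r + 1) * ρ ≤ δ * q)
    {U₀ : Type} {Qu : Qt m U₀} {α γ : ∀ J : ℕ, Fam m J → Type}
    {f : ∀ (J : ℕ) (F : Fam m J), F.Ω → α J F} {y : ∀ (J : ℕ) (F : Fam m J), F.Ω → γ J F}
    (_ : ∀ (J : ℕ) (F : Fam m J), ∃ φ : α J F → PtT F, ∀ ω, ptr F J ω = φ (f J F ω))
    (_ : Kn ((range r₀).image c) (v + lam) lam y) {a e₁ : ℝ} (_ : w ≤ a) (_ : a ≤ 1)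
    (_ : 0 < e₁) (_ : ∀ e : ℝ, 0 < e → e ≤ e₁ →
      FwL S f (vg a) y Qu c r₀ (r + 1) K v rd p (ctx c r₀ r K v lam n) e (δ * q))
    (_ : ∀ q' : ℝ, 0 ≤ q' → q' ≤ q → RawN S ((range r).image c) (c r) (p r) q' h (δ * q)),
    ∃ e₀ : ℝ, 0 < e₀ ∧ e₀ ≤ e₁ ∧ ∀ e : ℝ, 0 < e → e ≤ e₀ →
      FwL S f (vg a) y Qu c r₀ (r + 1) K v rd p
        (τ := fun _ F V => (V × (F.ζ × ℕ)) × (((Fin m → ℤ × ℤ) × (ℕ → ℕ → ℤ)) × (Fin (K + 3) → ℤ)))
        (fun J F V z' g ω => ((z' (vg v J F ω), (vg v J F ω).2),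
          (ctx c r₀ r K v lam n J F V z' g ω, pth c r K v (p r + q) J F V z' g ω))) e (ε * q) ∧
      ∀ K₀ : ℕ, Bas S (fun J F A => ∀ (V : Type) (z : PtT F → V) (z' : LnT F → V)
        (g : V → ℕ → MvPolynomial (Option (Fin m)) ℝ), LbC F c r₀ (r + 1) K e v rd p A z z' g →
        ∀ u₀ : F.Ω → U₀, Qu.P K₀ e J F A u₀ → ∀ u' : F.Ω → Fin (K + 2) → ℤ,
        (∀ j : Fin (K + 2), (qJet m ((range r).image c) (c r) ((j : ℕ) + 1) w (s r)
          (p r + q - ((j : ℕ) + 1 : ℕ) * v)).P K₀ e J F A (fun ω => u' ω j)) →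
        ∃ (V₁ : Type) (z₁ : F.Ω → V₁), Cl2 (f J F) (vg a J F) A z₁ ∧
          CH (Pool.Agent.H49.Ent.cond F.p A True)
            (fun ω => ((((z' (vg v J F ω), (vg v J F ω).2),
              (ctx c r₀ r K v lam n J F V z' g ω, pth c r K v (p r + q) J F V z' g ω)) :
              (V × (F.ζ × ℕ)) × (((Fin m → ℤ × ℤ) × (ℕ → ℕ → ℤ)) × (Fin (K + 3) → ℤ))), u' ω))
            (fun ω => (u₀ ω, (z₁ ω, y J F ω))) ≤ ε * q * J) := by
  classical
  obtain ⟨δ, hδ, H⟩ := path_nsb K hh hh1 (ε := ε / 4) (by positivity)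
  refine ⟨δ / 8, by positivity, ?_⟩
  intro m S C₀ htm c r₀ r v w lam q ρ g₀ p s n lv rd HW hρδ U₀ Qu α γ f y hf hy a e₁ hwa ha he₁
    hctx hraw
  have hq := HW.q0
  have hρ := HW.ρ0
  have hv0 := HW.v0
  have hvw := HW.vw
  have hδq : 0 < δ * q := by positivity
  have hlam : 0 < lam := by linarith [HW.mid]
  have hwp : w < v + lam := by linarith [HW.mid]
  have hy0 : Kn0 ((range r₀).image c) (v + lam) y := by
    intro J F
    obtain ⟨φ, hφ⟩ := hy J F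
    exact ⟨fun x => ((φ x).1, (φ x).2.1), fun ω => by
      show ((φ (y J F ω)).1, (φ (y J F ω)).2.1) = _
      rw [hφ ω]⟩
  have hyT : ∀ (J : ℕ) (F : Fam m J), ∃ φ : γ J F → ℕ, ∀ ω, F.T ω = φ (y J F ω) := by
    intro J F
    obtain ⟨φ, hφ⟩ := hy J F
    exact ⟨fun x => (φ x).1, fun ω => (congrArg Prod.fst (hφ ω)).symm⟩
  have hem : 0 < min e₁ (ρ / 8) := lt_min he₁ (by linarith)
  obtain ⟨e₂, he₂, he₂1, HP⟩ := H htm HW.hr (a := a) (q := q) (lam := lam) (n := n) hv0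
    (hvw.trans hwa) ha hq HW.vq (fun i x y => (HW.rd0 i x y).1) (Qu := Qu) hf hyT hem
    (fun e h1 h2 => (hctx e h1 (h2.trans (min_le_left _ _))).mono le_rfl (by linarith))
    (fun e h1 h2 => HW.valb htm hwa ha hf hy0 h1 (h2.trans (min_le_right _ _))
      (hctx e h1 (h2.trans (min_le_left _ _))) (by linarith))
    (fun q' h1 h2 => HW.nfc htm h1 h2 (hraw q' h1 h2) (by linarith))
  refine ⟨e₂, he₂, he₂1.trans (min_le_left _ _), fun e he hle => ⟨fun K₀ => ?_, fun K₀ => ?_⟩⟩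
  · refine Bas.mono 0 (HP e he hle K₀) ?_
    rintro J - F A h1 V z z' g hlb u₀ hu₀
    obtain ⟨V₁, z₁, hz₁, h2⟩ := h1 V z z' g hlb u₀ hu₀
    refine ⟨V₁, z₁, hz₁, h2.trans ?_⟩
    have : 0 ≤ ε * q * J := by positivity
    linarith
  have h8e : e ≤ ρ / 8 := hle.trans (he₂1.trans (min_le_right _ _))
  obtain ⟨u₁, rw, hch⟩ := HW.chn
  -- the change of the charts
  obtain ⟨h', hh'⟩ : ∃ h' : ℝ, h' = ε / 4 * q / (K + 2) := ⟨_, rfl⟩
  have hh0 : 0 < h' := by rw [hh']; positivity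
  have hhe : (K + 2) * h' = ε / 4 * q := by
    rw [hh']
    field_simp
  have hN : ∀ j < K + 2, F1 S f (vg a) y
      ((qJets m c r₀ r (j + 1) (fun _ _ => v) (fun l _ => p l)
        (fun l j' => n l - (j' : ℕ) * v)).prod
        (qJet m ((range r).image c) (c r) (j + 1) v (p r) (p r + q - (j + 1 : ℕ) * v)))
      (qJet m ((range r).image c) (c r) (j + 1) w (s r) (p r + q - (j + 1 : ℕ) * v))
      (ρ / 8) h' := by
    intro j hj
    have hj1 : ((j + 1 : ℕ) : ℝ) ≤ K + 2 := by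
      have : ((j + 1 : ℕ) : ℝ) ≤ ((K + 2 : ℕ) : ℝ) := by exact_mod_cast hj
      push_cast at this ⊢
      linarith
    have hjw : ((j + 1 : ℕ) : ℝ) * (w - v) ≤ (K + 2) * (w - v) :=
      mul_le_mul_of_nonneg_right hj1 (by linarith)
    have hmin : min lam (v + lam - w) = v + lam - w := min_eq_right (by linarith)
    refine F1.up hwa ha (jetN_F1 htm hch (lv := lv) (p₀ := v + lam) (lam := lam) (σ₀ := ρ)
      (wv := fun _ _ => v) (pv := fun l _ => p l) (Nv := fun l j' => n l - (j' : ℕ) * v)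
      (fun _ _ _ _ _ => hvw) hvw le_rfl hwp HW.l1.le hlam hρ HW.lv0 ?_ ?_ ?_ le_rfl ?_ ?_
      hf hy hh0)
    · intro i x y j' hj'
      have h1 := HW.dig i x y
      have h2 : 0 ≤ (j' : ℝ) * (w - v) := mul_nonneg (Nat.cast_nonneg _) (by linarith)
      linarith
    · intro i x y j' hj'
      rw [hmin]
      exact HW.bas i x y
    · intro i x y j' hj' l x' y'
      exact HW.nst i x y l x' y'
    · rw [hmin, min_comm, HW.minr]
      linarith [HW.topb]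
    · intro l x y
      rw [min_comm, HW.minr]
      linarith [HW.top l x y]
  obtain ⟨MV, JV, hcV⟩ := cnt_jets2 m K (e := e) (w := v) he (fun l j => n l - j * v)
    (fun i => max (rd i) 0) r (K + 3) (fun i _ => le_max_right _ _)
  choose MR JR hcR using fun j : ℕ => cnt_jet m K j (N := p r + q - j * v) (w := v)
    (HW.rd0 r HW.hr le_rfl).1 he
  choose M₂ hM₂ using fun j : ℕ => jet_path (K + 2) j
  obtain ⟨K₁, hK₁⟩ : ∃ K₁ : ℕ, K₁ = K₀ + K + MV + ∑ j ∈ range (K + 3), MR j := ⟨_, rfl⟩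
  obtain ⟨J₁, hJ₁⟩ : ∃ J₁ : ℕ, J₁ = JV + ∑ j ∈ range (K + 3), JR j := ⟨_, rfl⟩
  obtain ⟨L, hL⟩ : ∃ L : ℝ, L = ∑ j ∈ range (K + 3), Real.log (2 * M₂ j + 1) := ⟨_, rfl⟩
  have hlM : ∀ j, 0 ≤ Real.log (2 * (M₂ j : ℝ) + 1) := fun j => Real.log_nonneg (by
    have : (0 : ℝ) ≤ M₂ j := Nat.cast_nonneg _
    linarith)
  have hL0 : 0 ≤ L := by
    rw [hL]
    exact Finset.sum_nonneg fun j _ => hlM j
  have hLj : ∀ j < K + 3, Real.log (2 * (M₂ j : ℝ) + 1) ≤ L := by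
    intro j hj
    rw [hL]
    exact Finset.single_le_sum (f := fun j => Real.log (2 * (M₂ j : ℝ) + 1))
      (fun j _ => hlM j) (Finset.mem_range.2 hj)
  have hr0 : (0 : ℝ) ≤ r := Nat.cast_nonneg r
  obtain ⟨J₂, hJ₂⟩ := exists_nat_ge ((K + 2) * ((r * (K + 3) + 1) * L) / (ε / 4 * q))
  refine Bas.mono (max J₁ J₂) (((HP e he hle K₀).and (Bas.all (K + 2) fun j hj =>
    (hN j hj).mono h8e le_rfl K₁)).and (Pool.GRW.tmc_bas htm one_pos)) ?_
  rintro J hJ F A ⟨⟨HPA, HNA⟩, hA, -⟩ V z z' g hlb u₀ hu₀ u' hu'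
  have hJ1 : J₁ ≤ J := (le_max_left _ _).trans hJ
  have hJ2 : (J₂ : ℝ) ≤ J := by exact_mod_cast (le_max_right _ _).trans hJ
  have hJ0 : (0 : ℝ) ≤ J := Nat.cast_nonneg J
  have f1 : (K + 2) * ((r * (K + 3) + 1) * L) ≤ ε / 4 * q * J := by
    have := hJ₂.trans hJ2
    rw [div_le_iff₀ (by positivity)] at this
    linarith
  obtain ⟨q', hq'⟩ : ∃ q' : F.Ω → ℝ, q' = Pool.Agent.H49.Ent.cond F.p A True := ⟨_, rfl⟩
  have hq'l : IsLaw q' := by
    rw [hq']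
    exact isLaw_cond F.isLaw hA
  have h0 := hq'l.nonneg
  have hvJ : ⌊v * J⌋₊ ≤ J := floor_le (hvw.trans (hwa.trans ha)) J
  obtain ⟨Va, za, hza, h1⟩ := HPA V z z' g hlb u₀ hu₀
  rw [← hq'] at h1 ⊢
  obtain ⟨X, hX⟩ : ∃ X : F.Ω → (V × (F.ζ × ℕ)) × (((Fin m → ℤ × ℤ) × (ℕ → ℕ → ℤ)) ×
      (Fin (K + 3) → ℤ)), X = fun ω => ((z' (vg v J F ω), (vg v J F ω).2),
        (ctx c r₀ r K v lam n J F V z' g ω, pth c r K v (p r + q) J F V z' g ω)) := ⟨_, rfl⟩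
  replace h1 : CH q' X (fun ω => (u₀ ω, (za ω, y J F ω))) ≤ ε / 4 * q * J := by
    rw [hX]
    exact h1
  have hXe : ∀ ω, (((z' (vg v J F ω), (vg v J F ω).2),
        (ctx c r₀ r K v lam n J F V z' g ω, pth c r K v (p r + q) J F V z' g ω)) :
        (V × (F.ζ × ℕ)) × (((Fin m → ℤ × ℤ) × (ℕ → ℕ → ℤ)) × (Fin (K + 3) → ℤ))) = X ω :=
    fun ω => by rw [hX]
  simp only [hXe]
  have hlbr := hlb r HW.hr (Nat.lt_succ_self r)
  have hdeg : ∀ l, r₀ ≤ l → l < r + 1 → ∀ v,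
      (MvPolynomial.X (some (c l)) - g v l).totalDegree ≤ K + 2 := by
    intro l x y v
    refine (MvPolynomial.totalDegree_sub _ _).trans (max_le ?_ ?_)
    · exact (totalDegree_X _).le.trans (by omega)
    · exact ((hlb l x y).deg v).trans (by omega)
  -- the jets over `v`
  obtain ⟨uu, huu⟩ : ∃ uu : ℕ → F.Ω → ℕ → ℕ → ℤ, uu = fun (j : ℕ) ω (l j' : ℕ) =>
    if r₀ ≤ l ∧ l < r ∧ j' ≤ j + 1 then ⌊(2 : ℝ) ^ ((n l - j' * v) * J) *
      ojet F (c l) j' (g (z' (slam F ⌊v * J⌋₊ ω)) l) ω⌋ else 0 := ⟨_, rfl⟩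
  obtain ⟨ww, hww⟩ : ∃ ww : ℕ → F.Ω → ℤ, ww = fun (j : ℕ) ω =>
    ⌊(2 : ℝ) ^ ((p r + q - (j + 1 : ℕ) * v) * J) *
      ojet F (c r) (j + 1) (g (z' (slam F ⌊v * J⌋₊ ω)) r) ω⌋ := ⟨_, rfl⟩
  have hzj : ∀ j : Fin (K + 2), ∃ (V₂ : Type) (z₂ : F.Ω → V₂), Cl2 (f J F) (vg a J F) A z₂ ∧
      CH q' (fun ω => u' ω j) (fun ω => ((uu j ω, ww j ω), (z₂ ω, y J F ω))) ≤ h' * J := by
    intro j
    have h2 := HNA j j.2 (fun ω => (uu j ω, ww j ω)) (fun ω => u' ω j) ⟨⟨?_, ?_⟩, ?_⟩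
      ((qJet m _ _ _ _ _ _).mono (by omega) le_rfl (hu' j))
    · rw [← hq'] at h2
      exact h2
    · intro i x y j' hj'
      have e1 : (fun ω => uu j ω i j') = fun ω => ⌊(2 : ℝ) ^ ((n i - j' * v) * J) *
          ojet F (c i) j' (g (z' (slam F ⌊v * J⌋₊ ω)) i) ω⌋ := by
        funext ω
        rw [huu]
        exact if_pos ⟨x, y, hj'⟩
      refine ⟨?_, V, z, z', fun v => g v i, (LbP.of (hlb i x (by omega))).mono
        (Finset.Subset.refl _) (by omega) le_rfl, fun ω _ => by rw [huu]; exact if_pos ⟨x, y, hj'⟩⟩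
      show (cnt F.p (fun ω => uu j ω i j') A : ℝ) ≤ _
      rw [e1]
      have hj2 := j.2
      refine (hcV i y j' (by omega) J (by omega) F _ _ _ A V z z' (fun v => g v i) (by
        rw [max_eq_left (HW.rd0 i x y.le).1]
        exact hlb i x (by omega))).trans
        (Real.exp_le_exp.2 (mul_le_mul_of_nonneg_right ?_ hJ0))
      exact_mod_cast (by omega : MV ≤ K₁)
    · intro ω _ i j' hij
      show uu j ω i j' = 0
      rw [huu]
      exact if_neg hij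
    · have hj2 := j.2
      have hMj : MR (j + 1) ≤ ∑ j ∈ range (K + 3), MR j :=
        Finset.single_le_sum (f := MR) (fun i _ => Nat.zero_le _)
          (Finset.mem_range.2 (by omega))
      have hJj : JR (j + 1) ≤ ∑ j ∈ range (K + 3), JR j :=
        Finset.single_le_sum (f := JR) (fun i _ => Nat.zero_le _)
          (Finset.mem_range.2 (by omega))
      refine ⟨?_, V, z, z', fun v => g v r, (LbP.of hlbr).mono (Finset.Subset.refl _)
        (by omega) le_rfl, fun ω _ => by rw [hww]⟩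
      show (cnt F.p (fun ω => ww j ω) A : ℝ) ≤ _
      rw [hww]
      refine (hcR (j + 1) J (by omega) F _ _ _ A V z z' (fun v => g v r) hlbr).trans
        (Real.exp_le_exp.2 (mul_le_mul_of_nonneg_right ?_ hJ0))
      exact_mod_cast (by omega : MR (j + 1) ≤ K₁)
  choose Vz zz hzz hCz using hzj
  refine ⟨Va × (∀ j, Vz j), fun ω => (za ω, fun j => zz j ω), hza.join (Cl2.pi hzz), ?_⟩
  obtain ⟨Y, hY⟩ : ∃ Y : F.Ω → U₀ × ((Va × (∀ j, Vz j)) × γ J F), Y = fun ω =>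
    (u₀ ω, ((za ω, fun j => zz j ω), y J F ω)) := ⟨_, rfl⟩
  rw [← hY]
  obtain ⟨φT, hφT⟩ := hyT J F
  have hT : ∀ ω ω', (X ω, Y ω) = (X ω', Y ω') → F.T ω = F.T ω' := by
    intro ω ω' e
    have e1 := (Prod.ext_iff.mp e).2
    rw [hY] at e1
    simp only [Prod.mk.injEq] at e1
    rw [hφT, hφT, e1.2.2]
  -- the jets of the chain, from the path
  have k1 : ∀ j < K + 2, CH q' (uu j) (fun ω => (X ω, Y ω)) ≤ r * (K + 3) * L := by
    intro j hj
    refine le_trans (CH_mono_left h0 (X' := fun ω (l : Fin r) (j' : Fin (K + 3)) =>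
      uu j ω l j') fun ω ω' _ _ e => ?_) ((CH_pis h0 _ _).trans ?_)
    · funext l j'
      by_cases hlj : r₀ ≤ l ∧ l < r ∧ j' ≤ j + 1
      · exact congrFun (congrFun (Prod.ext_iff.mp e).1 ⟨l, hlj.2.1⟩) ⟨j', by omega⟩
      · rw [huu]
        show (if r₀ ≤ l ∧ l < r ∧ j' ≤ j + 1 then _ else (0 : ℤ)) =
          if r₀ ≤ l ∧ l < r ∧ j' ≤ j + 1 then _ else (0 : ℤ)
        rw [if_neg hlj, if_neg hlj]
    · have h2 : ∀ l ∈ (univ : Finset (Fin r)), CH q' (fun ω (j' : Fin (K + 3)) => uu j ω l j')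
          (fun ω => (X ω, Y ω)) ≤ (K + 3) * L := by
        intro l _
        refine (CH_pis h0 _ _).trans ?_
        have h3 : ∀ j' ∈ (univ : Finset (Fin (K + 3))), CH q' (fun ω => uu j ω l j')
            (fun ω => (X ω, Y ω)) ≤ L := by
          intro j' _
          by_cases hlj : r₀ ≤ (l : ℕ) ∧ (l : ℕ) < r ∧ (j' : ℕ) ≤ j + 1
          · have e1 : (fun ω => uu j ω l j') = fun ω =>
                ⌊(2 : ℝ) ^ ((n l - (j' : ℕ) * v) * J) *
                  ojet F (c l) j' (g (z' (slam F ⌊v * J⌋₊ ω)) l) ω⌋ := by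
              funext ω
              rw [huu]
              exact if_pos hlj
            rw [e1]
            refine (hM₂ j' hv0 hvJ (s := n l) (κ := c l) (z' := z') (G := fun v => g v l)
              (hdeg l hlj.1 (by omega)) hq'l (fun ω => (X ω, Y ω))
              fun ω ω' _ _ e => ⟨hT ω ω' e, fun i hi => ?_⟩).trans (hLj j' j'.2)
            have e2 := (Prod.ext_iff.mp e).1
            rw [hX] at e2
            simp only [Prod.mk.injEq] at e2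
            have e3 := congrFun (congrFun (Prod.ext_iff.mp e2.2.1).2 l) i
            dsimp only [ctx, ctxN] at e3
            rw [if_pos ⟨⟨hlj.1, hlj.2.1⟩, by omega⟩, if_pos ⟨⟨hlj.1, hlj.2.1⟩, by omega⟩] at e3
            exact e3
          · refine le_trans (le_of_eq (CH_eq_zero h0 fun ω ω' _ _ _ => ?_)) hL0
            rw [huu]
            show (if r₀ ≤ (l : ℕ) ∧ (l : ℕ) < r ∧ (j' : ℕ) ≤ j + 1 then _ else (0 : ℤ)) =
              if r₀ ≤ (l : ℕ) ∧ (l : ℕ) < r ∧ (j' : ℕ) ≤ j + 1 then _ else (0 : ℤ)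
            rw [if_neg hlj, if_neg hlj]
        refine (Finset.sum_le_sum h3).trans (le_of_eq ?_)
        rw [Finset.sum_const, Finset.card_univ, Fintype.card_fin, nsmul_eq_mul]
        push_cast
        ring
      refine (Finset.sum_le_sum h2).trans (le_of_eq ?_)
      rw [Finset.sum_const, Finset.card_univ, Fintype.card_fin, nsmul_eq_mul]
      ring
  have k2 : ∀ j < K + 2, CH q' (ww j) (fun ω => (X ω, Y ω)) ≤ L := by
    intro j hj
    rw [hww]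
    refine (hM₂ (j + 1) hv0 hvJ (s := p r + q) (κ := c r) (z' := z') (G := fun v => g v r)
      (hdeg r HW.hr (Nat.lt_succ_self r)) hq'l (fun ω => (X ω, Y ω))
      fun ω ω' _ _ e => ⟨hT ω ω' e, fun i hi => ?_⟩).trans (hLj (j + 1) (by omega))
    have e2 := (Prod.ext_iff.mp e).1
    rw [hX] at e2
    simp only [Prod.mk.injEq] at e2
    exact congrFun e2.2.2 ⟨i, by omega⟩
  -- the jets over `w`
  have k3 : CH q' u' (fun ω => (X ω, Y ω)) ≤ (K + 2) * ((r * (K + 3) + 1) * L + h' * J) := by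
    refine (CH_pis h0 u' _).trans ?_
    have h2 : ∀ j ∈ (univ : Finset (Fin (K + 2))), CH q' (fun ω => u' ω j)
        (fun ω => (X ω, Y ω)) ≤ (r * (K + 3) + 1) * L + h' * J := by
      intro j _
      have g1 := CH_le_add h0 (fun ω => u' ω j) (fun ω => (uu j ω, ww j ω))
        (fun ω => (X ω, Y ω))
      have g2 := CH_subadd h0 (fun ω => uu j ω) (fun ω => ww j ω) (fun ω => (X ω, Y ω))
      have g3 : CH q' (fun ω => u' ω j) (fun ω => ((uu j ω, ww j ω), (X ω, Y ω))) ≤ h' * J := by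
        refine le_trans (CH_mono_cond h0 fun ω ω' _ _ e => ?_) (hCz j)
        rw [hY] at e
        simp only [Prod.mk.injEq] at e ⊢
        exact ⟨e.1, congrFun e.2.2.2.1.2 j, e.2.2.2.2⟩
      have g4 := k1 j j.2
      have g5 := k2 j j.2
      have g6 : (r * (K + 3) + 1) * L = r * (K + 3) * L + L := by ring
      linarith
    refine (Finset.sum_le_sum h2).trans (le_of_eq ?_)
    rw [Finset.sum_const, Finset.card_univ, Fintype.card_fin, nsmul_eq_mul]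
    push_cast
    ring
  have k4 : CH q' X Y ≤ ε / 4 * q * J := by
    refine le_trans (CH_mono_cond h0 fun ω ω' _ _ e => ?_) h1
    rw [hY] at e
    simp only [Prod.mk.injEq] at e ⊢
    exact ⟨e.1, e.2.1.1, e.2.2⟩
  have k6 := CH_le_add h0 (fun ω => (X ω, u' ω)) X Y
  have k7 : CH q' (fun ω => (X ω, u' ω)) (fun ω => (X ω, Y ω)) ≤
      CH q' u' (fun ω => (X ω, Y ω)) := CH_mono_left h0 fun ω ω' _ _ e => by
    simp only [Prod.mk.injEq] at e ⊢
    exact ⟨e.2.1, e.1⟩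
  have k8 : (K + 2) * ((r * (K + 3) + 1) * L + h' * J) =
      (K + 2) * ((r * (K + 3) + 1) * L) + ε / 4 * q * J := by
    rw [← hhe]
    ring
  have k9 : 0 ≤ ε * q * J := by positivity
  linarith

end Pool.AJW
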