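import Pool.Agent.H71.AJW.Ones

/-!
# The own path over a chain which is known to few digits only

`MshN`: a finite chain of windows `b 0 ≤ … ≤ b M`, a chain of coordinates whose own heights over
`b 0` are known to `n l` digits, a little more than the natural digits at `b M`. `MshN.hgt`: own heights
over `b 0`, from the record at `b M`. `MshN.nfc`: the rows. `path_msh`: all jets of the own path of
`c r` over `b 0`, to `q` digits behind the natural ones, from the record at `a ≥ b M`.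
-/

set_option autoImplicit false

namespace Pool.AJW

open Finset Real MvPolynomial
open Pool.Agent.H49.Ent Pool.Agent.H32.Dense Pool.STK Pool.KA Pool.KSAT Pool.K2S Pool.PB Pool.GEN
open Pool.S6C Pool.RCD Pool.LA91 Pool.OWN68
open Pool.GRD (LbP)
open Pool.UNJ (ceI Tub)

/-- **The numbers** of a chain of windows. -/
structure MshN {m : ℕ} (S : PCl m) (c : ℕ → Fin m) (r₀ r : ℕ) (b : ℕ → ℝ) (M : ℕ)
    (Pv : ℕ → ℝ → ℝ) (D n : ℕ → ℝ) (Ub ρ : ℝ) (rk : ℕ → ℝ) : Prop where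
  hr : r₀ ≤ r
  ρ0 : 0 < ρ
  b0 : 0 ≤ b 0
  mono : ∀ k < M, b k ≤ b (k + 1)
  bU : b M < Ub
  U1 : Ub ≤ 1
  chn : ∀ k ≤ M, ∃ (u₁ : ℝ) (rd : ℕ → ℝ),
    Chn S c r₀ r (b k) (b k) u₁ (fun l => Pv l (b k)) rd ∧ ∀ l, r₀ ≤ l → l < r → 0 ≤ rd l
  att : ∀ k ≤ M, ∀ i, r₀ ≤ i → i ≤ r → Att S ((range i).image c) (c i) (b k) (Pv i (b k)) (rk i)
  rk0 : ∀ i, r₀ ≤ i → i ≤ r → 0 ≤ rk i
  Dn : ∀ l, r₀ ≤ l → l < r → D l ≤ n l
  lo : ∀ k ≤ M, ∀ l, r₀ ≤ l → l < r → Pv l (b k) + ρ < D l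
  hi : ∀ k ≤ M, ∀ l, r₀ ≤ l → l < r → D l + ρ ≤ Pv l (b k) + (Ub - b k)
  nest : ∀ k ≤ M, ∀ l, r₀ ≤ l → l < r → ∀ l', r₀ ≤ l' → l' < l →
    D l - Pv l (b k) + 2 * ρ ≤ D l' - Pv l' (b k)
  up : ∀ k < M, ∀ l, r₀ ≤ l → l < r →
    D l + ρ ≤ min (Pv l (b k)) (Pv l (b (k + 1))) + (Ub - b (k + 1))
  up' : ∀ k < M, ∀ l, r₀ ≤ l → l < r → ∀ l', r₀ ≤ l' → l' < l →
    D l + 2 * ρ ≤ min (Pv l (b k)) (Pv l (b (k + 1))) + (D l' - Pv l' (b (k + 1)))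

/-- **The digits of a target** `c i`. -/
structure TgtN (r₀ i : ℕ) (b : ℕ → ℝ) (M : ℕ)
    (Pv : ℕ → ℝ → ℝ) (D : ℕ → ℝ) (Ub ρ N : ℝ) : Prop where
  nat : N + ρ ≤ Pv i (b M)
  dn : ∀ k < M, N + ρ ≤ min (Pv i (b k)) (Pv i (b (k + 1))) + (Ub - b (k + 1))
  dn' : ∀ k < M, ∀ l, r₀ ≤ l → l < i →
    N + 2 * ρ ≤ min (Pv i (b k)) (Pv i (b (k + 1))) + (D l - Pv l (b (k + 1)))

namespace MshN

variable {m : ℕ} {S : PCl m} {C₀ : ℝ} {c : ℕ → Fin m} {r₀ r : ℕ} {b : ℕ → ℝ} {M : ℕ}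
  {Pv : ℕ → ℝ → ℝ} {D n : ℕ → ℝ} {Ub ρ : ℝ} {rk : ℕ → ℝ}
  {α γ : ∀ J : ℕ, Fam m J → Type} {f : ∀ (J : ℕ) (F : Fam m J), F.Ω → α J F}
  {y : ∀ (J : ℕ) (F : Fam m J), F.Ω → γ J F}

theorem bmono (H : MshN S c r₀ r b M Pv D n Ub ρ rk) {k l : ℕ} (hkl : k ≤ l) (hl : l ≤ M) :
    b k ≤ b l := by
  induction l, hkl using Nat.le_induction with
  | base => exact le_rfl
  | succ l hkl ih => exact (ih (by omega)).trans (H.mono l (by omega))

theorem bM1 (H : MshN S c r₀ r b M Pv D n Ub ρ rk) : b M < 1 := H.bU.trans_le H.U1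

/-- **The heights of the chain at every window.** -/
theorem hup (htm : TmC S C₀) (H : MshN S c r₀ r b M Pv D n Ub ρ rk)
    (hf : ∀ (J : ℕ) (F : Fam m J), ∃ φ : α J F → PtT F, ∀ ω, ptr F J ω = φ (f J F ω))
    (hy : Kn0 ((range r₀).image c) Ub y) {U : Type} {Q : Qt m U} {i : ℕ} (hi : i ≤ r)
    (hQ : ∀ l, r₀ ≤ l → l < i → ∀ h : ℝ, 0 < h → F1 S f (vg (b M)) y Q
      (qJet m ((range l).image c) (c l) 0 (b 0) (Pv l (b 0)) (D l)) (ρ / 8) h) :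
    ∀ n ≤ i, ∀ l, r₀ ≤ l → l < n → ∀ k ≤ M, ∀ h : ℝ, 0 < h →
      F1 S f (vg (b M)) y Q (qJet m ((range l).image c) (c l) 0 (b k) (Pv l (b k)) (D l))
        (ρ / 8) h := by
  intro n
  induction n with
  | zero =>
    intro _ l _ hl
    exact absurd hl (Nat.not_lt_zero l)
  | succ n ih =>
    intro hn' l hl0 hl k hk h hh
    have ih := ih (by omega)
    rcases Nat.lt_or_ge l n with h3 | h3
    · exact ih l hl0 h3 k hk h hh
    · obtain rfl : l = n := by omega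
      have hli : l < i := by omega
      have hlr : l < r := by omega
      have hρ := H.ρ0
      have hmx : ∀ j < k, max (b j) (b (j + 1)) = b (j + 1) := fun j hj =>
        max_eq_right (H.mono j (by omega))
      refine chainMh htm (κ := c l) (rk := rk l) (p₀ := Ub) (N := D l) (N₁ := D l)
        (Lm := fun l β => D l - Pv l β) (Pv := Pv)
        (H.rk0 l hl0 hlr.le) H.bM1 H.bU H.U1 hρ hf hy le_rfl b (fun k => Pv l (b k))
        (hQ l hl0 hli) k (fun j hj => H.bmono (hj.trans hk) le_rfl)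
        (fun j hj => H.att j (hj.trans hk) l hl0 hlr.le) (fun j hj => ?_) (fun j hj => ?_)
        (fun j hj l' x y => by linarith [H.lo j (hj.trans hk) l' x (y.trans hlr)])
        (fun j hj l' x y => by linarith [H.hi j (hj.trans hk) l' x (y.trans hlr)])
        (fun j hj l' x y l'' x' y' => by
          linarith [H.nest j (hj.trans hk) l' x (y.trans hlr) l'' x' y'])
        ?_ (fun l' x y => ?_) (fun j hj => ?_) (fun j hj l' x y => ?_) h hh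
      · obtain ⟨u₁, rd, h4, h5⟩ := H.chn j (hj.trans hk)
        exact ⟨u₁, rd, h4.take hl0 hlr.le, fun l' x y => h5 l' x (y.trans hlr)⟩
      · intro h' hh'
        have e1 := F1.qjets (y := y) (f := f) (g := vg (b M)) htm (Q := Q) (c := c) (r₀ := r₀)
          (r := l) (j := 0) (w := fun _ _ => b j) (p := fun l _ => Pv l (b j))
          (N := fun l _ => Pv l (b j) + (D l - Pv l (b j))) (e := ρ / 8)
          (η := h' / ((l * (0 + 1) : ℕ) + 1)) (by positivity)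
          (fun l' a b' j' hj' => by
            obtain rfl : j' = 0 := by omega
            rw [add_sub_cancel]
            exact ih l' a b' j (hj.trans hk) _ (by positivity))
        refine e1.mono le_rfl ?_
        rw [mul_div_assoc', div_le_iff₀ (by positivity)]
        nlinarith
      · linarith [H.hi 0 (Nat.zero_le _) l hl0 hlr]
      · linarith [H.nest 0 (Nat.zero_le _) l hl0 hlr l' x y]
      · rw [hmx j hj]
        exact H.up j (by omega) l hl0 hlr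
      · rw [hmx j hj]
        exact H.up' j (by omega) l hl0 hlr l' x y

/-- **The own height over the first window**, from the record at the last one. -/
theorem hdn (htm : TmC S C₀) (H : MshN S c r₀ r b M Pv D n Ub ρ rk)
    (hf : ∀ (J : ℕ) (F : Fam m J), ∃ φ : α J F → PtT F, ∀ ω, ptr F J ω = φ (f J F ω))
    (hy : Kn0 ((range r₀).image c) Ub y) {U : Type} {Q : Qt m U} {i : ℕ} (hi0 : r₀ ≤ i)
    (hi : i ≤ r)
    (hV : ∀ l, r₀ ≤ l → l < i → ∀ k ≤ M, ∀ h : ℝ, 0 < h →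
      F1 S f (vg (b M)) y Q (qJet m ((range l).image c) (c l) 0 (b k) (Pv l (b k)) (D l))
        (ρ / 8) h) {N : ℝ} (hN : TgtN r₀ i b M Pv D Ub ρ N) :
    ∀ h : ℝ, 0 < h → F1 S f (vg (b M)) y Q
      (qJet m ((range i).image c) (c i) 0 (b 0) (Pv i (b 0)) N) (ρ / 8) h := by
  intro h hh
  have hρ := H.ρ0
  obtain ⟨b', hb'⟩ : ∃ b' : ℕ → ℝ, b' = fun k => b (M - k) := ⟨_, rfl⟩
  have e1 : b' 0 = b M := by rw [hb']; simp
  have e2 : b' M = b 0 := by rw [hb']; simp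
  have hb0M : 0 ≤ b M := H.b0.trans (H.bmono (Nat.zero_le M) le_rfl)
  have hmx : ∀ j < M, max (b' j) (b' (j + 1)) = b (M - (j + 1) + 1) := by
    intro j hj
    rw [hb']
    dsimp only
    have e3 : M - j = M - (j + 1) + 1 := by omega
    rw [e3]
    exact max_eq_left (H.mono _ (by omega))
  have hpr : ∀ j < M, min (Pv i (b' j)) (Pv i (b' (j + 1))) =
      min (Pv i (b (M - (j + 1)))) (Pv i (b (M - (j + 1) + 1))) := by
    intro j hj
    rw [hb']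
    dsimp only
    have e3 : M - j = M - (j + 1) + 1 := by omega
    rw [e3, min_comm]
  have key := chainMh htm (y := y) (f := f) (κ := c i) (a := b M) (rk := rk i) (p₀ := Ub)
    (N := N) (N₁ := N) (Q := Q)
    (Lm := fun l β => D l - Pv l β) (Pv := Pv)
    (H.rk0 i hi0 hi) H.bM1 H.bU H.U1 hρ hf hy le_rfl b' (fun k => Pv i (b' k))
    (fun h' hh' => F1.of0 htm ((few0_room htm (by rw [e1]; exact hb0M)
      (by rw [e1]; exact H.bM1) hρ (by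
        rw [e1, Nat.cast_zero, zero_mul, add_zero]
        exact hN.nat) f (vg (b M)) y hh').mono (by linarith) le_rfl)) M
    (fun j hj => by rw [hb']; exact H.bmono (Nat.sub_le M j) le_rfl)
    (fun j hj => by rw [hb']; exact H.att _ (Nat.sub_le M j) i hi0 hi) (fun j hj => ?_)
    (fun j hj => ?_)
    (fun j hj l' x y => by
      rw [hb']
      dsimp only
      linarith [H.lo _ (Nat.sub_le M j) l' x (y.trans_le hi)])
    (fun j hj l' x y => by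
      rw [hb']
      dsimp only
      linarith [H.hi _ (Nat.sub_le M j) l' x (y.trans_le hi)])
    (fun j hj l' x y l'' x' y' => by
      rw [hb']
      dsimp only
      linarith [H.nest _ (Nat.sub_le M j) l' x (y.trans_le hi) l'' x' y'])
    ?_ (fun l' x y => ?_) (fun j hj => ?_) (fun j hj l' x y => ?_) h hh
  · rw [e2] at key
    exact key
  · rw [hb']
    obtain ⟨u₁, rd, h4, h5⟩ := H.chn (M - j) (Nat.sub_le M j)
    exact ⟨u₁, rd, h4.take hi0 hi, fun l' x y => h5 l' x (y.trans_le hi)⟩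
  · intro h' hh'
    rw [hb']
    dsimp only
    have e1 := F1.qjets (y := y) (f := f) (g := vg (b M)) htm (Q := Q) (c := c) (r₀ := r₀)
      (r := i) (j := 0) (w := fun _ _ => b (M - j)) (p := fun l _ => Pv l (b (M - j)))
      (N := fun l _ => Pv l (b (M - j)) + (D l - Pv l (b (M - j)))) (e := ρ / 8)
      (η := h' / ((i * (0 + 1) : ℕ) + 1)) (by positivity)
      (fun l' a b' j' hj' => by
        obtain rfl : j' = 0 := by omega
        rw [add_sub_cancel]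
        exact hV l' a b' _ (Nat.sub_le M j) _ (by positivity))
    refine e1.mono le_rfl ?_
    rw [mul_div_assoc', div_le_iff₀ (by positivity)]
    nlinarith
  · rw [e1]
    linarith [hN.nat, H.bU]
  · rw [e1]
    linarith [hN.nat, H.lo M le_rfl l' x (y.trans_le hi)]
  · rw [hmx j hj, hpr j hj]
    exact hN.dn _ (by omega)
  · rw [hmx j hj, hpr j hj]
    exact hN.dn' _ (by omega) l' x y

/-- **The own height over the first window**, relative to the heights of the chain there. -/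
theorem hgt (htm : TmC S C₀) (H : MshN S c r₀ r b M Pv D n Ub ρ rk)
    (hf : ∀ (J : ℕ) (F : Fam m J), ∃ φ : α J F → PtT F, ∀ ω, ptr F J ω = φ (f J F ω))
    (hy : Kn0 ((range r₀).image c) Ub y) {i : ℕ} (hi0 : r₀ ≤ i) (hi : i ≤ r)
    {N : ℝ} (hN : TgtN r₀ i b M Pv D Ub ρ N) {h : ℝ} (hh : 0 < h) :
    F1 S f (vg (b M)) y (qJets m c r₀ i 0 (fun _ _ => b 0) (fun l _ => Pv l (b 0))
        (fun l _ => n l))
      (qJet m ((range i).image c) (c i) 0 (b 0) (Pv i (b 0)) N) (ρ / 8) h := by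
  have hρ := H.ρ0
  have hb0 : b 0 ≤ b M := H.bmono (Nat.zero_le M) le_rfl
  refine H.hdn htm hf hy hi0 hi (H.hup htm hf hy hi ?_ i le_rfl) hN h hh
  -- from the quantity
  intro l hl0 hli h hh
  have hlr : l < r := by omega
  obtain ⟨u₁, rd, hch, hrd⟩ := H.chn 0 (Nat.zero_le M)
  have e2 := hgt_F1 (y := y) htm (hch.take hl0 hlr.le) (k := c l) (wv := fun _ _ => b 0)
    (pv := fun i _ => Pv i (b 0)) (Nv := fun l _ => n l)
    (lv := fun l => D l - Pv l (b 0) - ρ) (w₁ := b 0) (w₂ := b 0)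
    (p₁ := Pv l (b 0)) (p₂ := Pv l (b 0)) (N₁ := n l) (N₂ := D l) (p₀ := Ub)
    (σ₀ := ρ) (fun _ _ _ _ _ => le_rfl) le_rfl le_rfl (lt_of_le_of_lt hb0 H.bU) H.U1 hρ
    (fun l' x1 x2 => by linarith [H.lo 0 (Nat.zero_le M) l' x1 (x2.trans hlr)])
    (fun l' x1 x2 => by linarith [H.Dn l' x1 (x2.trans hlr)])
    (fun l' x1 x2 => by
      rw [min_self]
      linarith [H.hi 0 (Nat.zero_le M) l' x1 (x2.trans hlr)])
    (fun l' x1 x2 l'' x3 x4 => by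
      rw [min_self]
      linarith [H.nest 0 (Nat.zero_le M) l' x1 (x2.trans hlr) l'' x3 x4])
    (H.Dn l hl0 hlr)
    (by
      rw [min_self]
      linarith [H.hi 0 (Nat.zero_le M) l hl0 hlr])
    (fun l' x1 x2 => by
      rw [min_self]
      linarith [H.nest 0 (Nat.zero_le M) l hl0 hlr l' x1 x2]) hf hy (h := h) hh
  refine F1.pull htm (Q₁ := (qJets m c r₀ l 0 (fun _ _ => b 0) (fun i _ => Pv i (b 0))
    (fun l _ => n l)).prod (qJet m ((range l).image c) (c l) 0 (b 0) (Pv l (b 0))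
      (n l))) (fun u => ((fun i' j' => if i' < l then u i' j' else 0), u l 0)) ?_
    (e2.up hb0 H.bM1.le)
  intro K e J F A u hu
  refine ⟨⟨fun i' a b' j' c' => ?_, fun ω hω i' j' h' => ?_⟩, ?_⟩
  · have e1 := hu.1 i' a (b'.trans hli) j' c'
    show (qJet m _ _ _ _ _ _).P K e J F A (fun ω => if i' < l then u ω i' j' else 0)
    simp only [if_pos b']
    exact e1
  · show (if i' < l then u ω i' j' else 0) = 0
    split_ifs with h3
    · exact hu.2 ω hω i' j' fun h4 => h' ⟨h4.1, h3, h4.2.2⟩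
    · rfl
  · exact hu.1 l hl0 hli 0 le_rfl

/-- **The rows of the own height over the first window.** -/
theorem nfc (htm : TmC S C₀) (H : MshN S c r₀ r b M Pv D n Ub ρ rk) {q q' h δ₁ δ g₀ : ℝ}
    {rd N : ℕ → ℝ} (hq0 : 0 ≤ q') (hqq : q' ≤ q) (hp0 : 0 ≤ Pv r (b 0)) (hg₀ : 0 < g₀)
    (hpq : Pv r (b 0) + q + g₀ ≤ 1) (hrd : ∀ i, r₀ ≤ i → i ≤ r → 0 ≤ rd i ∧ rd i + g₀ ≤ 1)
    (hn1 : ∀ i, r₀ ≤ i → i < r → n i + g₀ ≤ 1) (hU1 : Ub < 1)
    (hN : ∀ i, r₀ ≤ i → i < r → TgtN r₀ i b M Pv D Ub ρ (N i) ∧ N i ≤ n i)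
    (hNr : TgtN r₀ r b M Pv D Ub ρ (Pv r (b 0) + q))
    (hraw : RawN S ((range r).image c) (c r) (Pv r (b 0)) q' h δ₁)
    (hδ : δ₁ + ∑ i ∈ Finset.Ico r₀ r, (Pv i (b M) - N i) < δ) :
    NfC S c r₀ r (b 0) q' h δ Ub rd (fun l => Pv l (b 0)) n := by
  classical
  obtain ⟨u₁, rdM, hchM, -⟩ := H.chn M le_rfl
  have hρ := H.ρ0
  have hb0 : b 0 ≤ b M := H.bmono (Nat.zero_le M) le_rfl
  have hr0 : (0 : ℝ) ≤ r := Nat.cast_nonneg r
  obtain ⟨δ₂, hδ₂⟩ : ∃ δ₂ : ℝ, δ₂ = (δ - (δ₁ + ∑ i ∈ Finset.Ico r₀ r, (Pv i (b M) - N i))) /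
    (2 * (r + 1)) := ⟨_, rfl⟩
  have hδ₂0 : 0 < δ₂ := by
    rw [hδ₂]
    exact div_pos (by linarith) (by linarith)
  have hδ₂e : (r + 1) * δ₂ = (δ - (δ₁ + ∑ i ∈ Finset.Ico r₀ r, (Pv i (b M) - N i))) / 2 := by
    rw [hδ₂]
    field_simp
  obtain ⟨Nl, hNl⟩ : ∃ Nl : ℕ → ℝ, Nl = fun i => if i = r then Pv r (b 0) + q' else N i :=
    ⟨_, rfl⟩
  have hNr' : Nl r = Pv r (b 0) + q' := by
    rw [hNl]
    exact if_pos rfl
  have hNi : ∀ i, i < r → Nl i = N i := by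
    intro i hi
    rw [hNl]
    exact if_neg hi.ne
  refine nfc_of htm H.hr (w := b 0) (o := b M) (q := q') (U := Ub) (so := fun i => Pv i (b M))
    (Nl := Nl) (e₁ := ρ / 8) (g₀ := g₀) (δ₁ := δ₁) (δ₂ := δ₂) hb0 H.bM1.le hp0 hq0 hg₀
    (by linarith) hrd hn1 hU1.le hraw
    (hchM.base _ H.bU hU1) hchM.ful (by linarith) ?_ hNr' ?_ ?_ hδ₂0.le ?_
  · intro i hi0 hi
    have hT : TgtN r₀ i b M Pv D Ub ρ (Nl i) := by
      rcases Nat.lt_or_ge i r with h1 | h1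
      · rw [hNi i h1]
        exact (hN i hi0 h1).1
      · obtain rfl : i = r := by omega
        rw [hNr']
        exact ⟨by linarith [hNr.nat], fun k hk => by linarith [hNr.dn k hk],
          fun k hk l x y => by linarith [hNr.dn' k hk l x y]⟩
    exact H.hgt htm (fun J F => ⟨fun x => x, fun _ => rfl⟩)
      (kn0_bI ((range r₀).image c) Ub) hi0 hi hT hδ₂0
  · intro i hi0 hi
    rw [hNi i hi]
    exact (hN i hi0 hi).2
  · intro i hi0 hi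
    rw [hNi i hi]
    linarith [(hN i hi0 hi).1.nat]
  · have h1 : ∑ i ∈ Finset.Ico r₀ r, (Pv i (b M) - Nl i) =
        ∑ i ∈ Finset.Ico r₀ r, (Pv i (b M) - N i) :=
      Finset.sum_congr rfl fun i hi => by rw [hNi i (Finset.mem_Ico.1 hi).2]
    rw [h1]
    linarith

/-- **The value of the own path**, for the labels of one family. -/
theorem valb (htm : TmC S C₀) (H : MshN S c r₀ r b M Pv D n Ub ρ rk) {K : ℕ} {U₀ : Type}
    {Qu : Qt m U₀} {a : ℝ} (hba : b M ≤ a) (ha : a ≤ 1)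
    (hf : ∀ (J : ℕ) (F : Fam m J), ∃ φ : α J F → PtT F, ∀ ω, ptr F J ω = φ (f J F ω))
    (hy : Kn0 ((range r₀).image c) Ub y) {δ₁ δ₂ e N lam : ℝ} {rd : ℕ → ℝ}
    (hrd : ∀ i, r₀ ≤ i → i ≤ r → 0 ≤ rd i) (he : 0 < e)
    (he8 : e ≤ ρ / 8) (hN : TgtN r₀ r b M Pv D Ub ρ N)
    (hctx : FwL S f (vg a) y Qu c r₀ (r + 1) K (b 0) rd (fun l => Pv l (b 0))
      (ctx c r₀ r K (b 0) lam n) e δ₁)
    (hδ : δ₁ < δ₂) :
    FwL S f (vg a) y Qu c r₀ (r + 1) K (b 0) rd (fun l => Pv l (b 0)) (hgf c r (b 0) N) e δ₂ := by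
  classical
  have hb0 : b 0 ≤ b M := H.bmono (Nat.zero_le M) le_rfl
  obtain ⟨h', hh'⟩ : ∃ h' : ℝ, h' = (δ₂ - δ₁) / 4 := ⟨_, rfl⟩
  have hh0 : 0 < h' := by rw [hh']; linarith
  have hyT : ∀ (J : ℕ) (F : Fam m J), ∃ φ : γ J F → ℕ, ∀ ω, F.T ω = φ (y J F ω) := by
    intro J F
    obtain ⟨φ, hφ⟩ := hy J F
    exact ⟨fun x => (φ x).1, fun ω => (congrArg Prod.fst (hφ ω)).symm⟩
  have a3 := (F1.up hba ha (H.hgt htm hf hy H.hr le_rfl hN hh0)).mono he8 le_rfl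
  obtain ⟨M₁, J₁, hc1⟩ := cnt_jets m K (e := e) (w := b 0) he n (fun i => max (rd i) 0) r
    (fun i _ => le_max_right _ _)
  obtain ⟨M₂, J₂, hc2⟩ := cnt_jet m K 0 (N := N) (w := b 0) (hrd r H.hr le_rfl) he
  have lK : 0 ≤ Real.log (4 * ((K : ℝ) + 3) + 3) := Real.log_nonneg (by
    have : (0 : ℝ) ≤ K := Nat.cast_nonneg K
    linarith)
  obtain ⟨J₃, hJ₃⟩ := exists_nat_ge (r * Real.log (4 * (K + 3) + 3) / h')
  intro K₀
  obtain ⟨K₁, hK₁⟩ : ∃ K₁ : ℕ, K₁ = K₀ + K + M₁ + M₂ := ⟨_, rfl⟩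
  refine Bas.mono (max (max J₁ J₂) J₃) ((hctx K₀).and
    ((a3 K₁).and (Pool.GRW.tmc_bas htm one_pos))) ?_
  rintro J hJ F A ⟨HC, HT, hA, -⟩ V z z' g hlb u₀ hu₀
  have hJ1 : J₁ ≤ J := (le_max_left _ _).trans ((le_max_left _ _).trans hJ)
  have hJ2 : J₂ ≤ J := (le_max_right _ _).trans ((le_max_left _ _).trans hJ)
  have hJ3 : (J₃ : ℝ) ≤ J := by exact_mod_cast (le_max_right _ _).trans hJ
  have hJ0 : (0 : ℝ) ≤ J := Nat.cast_nonneg J
  have f1 : r * Real.log (4 * (K + 3) + 3) ≤ h' * J := by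
    have := hJ₃.trans hJ3
    rw [div_le_iff₀ hh0] at this
    linarith
  obtain ⟨q', hq'⟩ : ∃ q' : F.Ω → ℝ, q' = Pool.Agent.H49.Ent.cond F.p A True := ⟨_, rfl⟩
  have hq'l : IsLaw q' := by
    rw [hq']
    exact isLaw_cond F.isLaw hA
  have h0 := hq'l.nonneg
  have hvJ : ⌊b 0 * J⌋₊ ≤ J := floor_le (hb0.trans (hba.trans ha)) J
  obtain ⟨V₁, z₁, hz₁, h1⟩ := HC V z z' g hlb u₀ hu₀
  obtain ⟨ht, hht⟩ : ∃ ht : F.Ω → ℕ → ℤ, ht = fun ω => hts F c r₀ r z' ⌊b 0 * J⌋₊ g n ω :=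
    ⟨_, rfl⟩
  obtain ⟨V₃, z₃, hz₃, h3⟩ := HT (fun ω i j' => if j' = 0 then ht ω i else 0)
    (hgf c r (b 0) N J F V z' g)
    (by
      rw [hht]
      refine (qJets m _ _ _ _ _ _ _).mono ?_ le_rfl (qJets_hts (M := M₁) (Nat.le_succ r) hlb
        fun i hi0 hi => ?_)
      · exact max_le (by omega) (by omega)
      · exact hc1 i hi J hJ1 F _ _ _ A V z z' (fun v => g v i) (by
          rw [max_eq_left (hrd i hi0 hi.le)]
          exact hlb i hi0 (by omega)))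
    ⟨by
      refine (hc2 J hJ2 F _ _ _ A V z z' (fun v => g v r)
        (hlb r H.hr (Nat.lt_succ_self r))).trans
        (Real.exp_le_exp.2 (mul_le_mul_of_nonneg_right ?_ hJ0))
      exact_mod_cast (by omega : M₂ ≤ K₁), V, z, z', fun v => g v r,
      (LbP.of (hlb r H.hr (Nat.lt_succ_self r))).mono (Finset.Subset.refl _) (by omega) le_rfl,
      fun ω _ => rfl⟩
  refine ⟨_, fun ω => (z₁ ω, z₃ ω), hz₁.join hz₃, ?_⟩
  rw [← hq'] at h1 h3 ⊢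
  obtain ⟨X, hX⟩ : ∃ X : F.Ω → (Fin m → ℤ × ℤ) × (ℕ → ℕ → ℤ),
    X = ctx c r₀ r K (b 0) lam n J F V z' g := ⟨_, rfl⟩
  obtain ⟨Hf, hHf⟩ : ∃ Hf : F.Ω → ℤ, Hf = hgf c r (b 0) N J F V z' g := ⟨_, rfl⟩
  rw [← hX] at h1
  rw [← hHf] at h3 ⊢
  obtain ⟨Y, hY⟩ : ∃ Y : F.Ω → U₀ × ((V₁ × V₃) × γ J F), Y = fun ω =>
    (u₀ ω, ((z₁ ω, z₃ ω), y J F ω)) := ⟨_, rfl⟩
  rw [← hY]
  have s1 := CH_le_add h0 Hf (fun ω => (X ω, ht ω)) Y
  have s2 := CH_chain h0 ht X Y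
  have s3 : CH q' (fun ω => (X ω, ht ω)) Y = CH q' (fun ω => (ht ω, X ω)) Y :=
    CH_congr h0 (fun ω ω' _ _ e => by
      simp only [Prod.mk.injEq] at e ⊢
      tauto) (fun ω ω' _ _ e => by
      simp only [Prod.mk.injEq] at e ⊢
      tauto) (fun _ _ _ _ e => e) (fun _ _ _ _ e => e)
  have s5 : CH q' ht (fun ω => (X ω, Y ω)) ≤ r * Real.log (4 * (K + 3) + 3) := by
    rw [hht]
    obtain ⟨φ, hφ⟩ := hyT J F
    refine hts_few hvJ (fun l a b v => (hlb l a (by omega)).deg v) hq'l (fun ω => (X ω, Y ω))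
      X (Un := ⌊(b 0 + lam) * J⌋₊) (fun ω => by rw [hX]; rfl) fun ω ω' e => ?_
    have e1 := (Prod.ext_iff.mp e).2
    rw [hY] at e1
    simp only [Prod.mk.injEq] at e1
    exact ⟨by rw [hφ, hφ, e1.2.2], (Prod.ext_iff.mp e).1⟩
  have s6 : CH q' X Y ≤ δ₁ * J := by
    refine le_trans (CH_mono_cond h0 fun ω ω' _ _ e => ?_) h1
    rw [hY] at e
    simp only [Prod.mk.injEq] at e ⊢
    exact ⟨e.1, e.2.1.1, e.2.2⟩
  have s8 : CH q' Hf (fun ω => ((X ω, ht ω), Y ω)) ≤ h' * J := by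
    refine le_trans (CH_mono_cond h0 fun ω ω' _ _ e => ?_) h3
    rw [hY] at e
    simp only [Prod.mk.injEq] at e ⊢
    obtain ⟨⟨e1, e2⟩, e4, ⟨e5, e7⟩, e8⟩ := e
    exact ⟨by rw [e2], e7, e8⟩
  have s9 : δ₂ * J = δ₁ * J + 4 * (h' * J) := by
    rw [hh']
    ring
  have s10 : 0 ≤ h' * J := by positivity
  linarith

end MshN

/-- **All jets of the own path over a chain which is known to few digits only.** -/
theorem path_msh (K : ℕ) {h : ℝ} (hh : 0 < h) (hh1 : h ≤ 1) {ε : ℝ}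
    (hε : 0 < ε) : ∃ δ : ℝ, 0 < δ ∧ ∀ {m : ℕ} {S : PCl m} {C₀ : ℝ} (_ : TmC S C₀)
    {c : ℕ → Fin m} {r₀ r : ℕ} {b : ℕ → ℝ} {M : ℕ} {Pv : ℕ → ℝ → ℝ} {D n : ℕ → ℝ}
    {Ub ρ : ℝ} {rk : ℕ → ℝ} (_ : MshN S c r₀ r b M Pv D n Ub ρ rk)
    {q g₀ : ℝ} {rd N : ℕ → ℝ} (_ : 0 < q) (_ : 0 ≤ Pv r (b 0)) (_ : 0 < g₀)
    (_ : Pv r (b 0) + q + g₀ ≤ 1) (_ : ∀ i, r₀ ≤ i → i ≤ r → 0 ≤ rd i ∧ rd i + g₀ ≤ 1)
    (_ : ∀ i, r₀ ≤ i → i < r → n i + g₀ ≤ 1) (_ : Ub < 1) (_ : b 0 + q ≤ 1)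
    (_ : ∀ i, r₀ ≤ i → i < r → TgtN r₀ i b M Pv D Ub ρ (N i) ∧ N i ≤ n i)
    (_ : TgtN r₀ r b M Pv D Ub ρ (Pv r (b 0) + q))
    (_ : ∑ i ∈ Finset.Ico r₀ r, (Pv i (b M) - N i) ≤ δ * q)
    {U₀ : Type} {Qu : Qt m U₀} {α γ : ∀ J : ℕ, Fam m J → Type}
    {f : ∀ (J : ℕ) (F : Fam m J), F.Ω → α J F} {y : ∀ (J : ℕ) (F : Fam m J), F.Ω → γ J F}
    (_ : ∀ (J : ℕ) (F : Fam m J), ∃ φ : α J F → PtT F, ∀ ω, ptr F J ω = φ (f J F ω))
    (_ : Kn0 ((range r₀).image c) Ub y) {a e₁ : ℝ} (_ : b M ≤ a) (_ : a ≤ 1)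
    (_ : 0 < e₁) (_ : ∀ e : ℝ, 0 < e → e ≤ e₁ →
      FwL S f (vg a) y Qu c r₀ (r + 1) K (b 0) rd (fun l => Pv l (b 0))
        (ctx c r₀ r K (b 0) (Ub - b 0) n) e (δ * q))
    (_ : ∀ q' : ℝ, 0 ≤ q' → q' ≤ q →
      RawN S ((range r).image c) (c r) (Pv r (b 0)) q' h (δ * q)),
    ∃ e₀ : ℝ, 0 < e₀ ∧ e₀ ≤ e₁ ∧ ∀ e : ℝ, 0 < e → e ≤ e₀ →
      FwL S f (vg a) y Qu c r₀ (r + 1) K (b 0) rd (fun l => Pv l (b 0))
        (τ := fun _ F V => (V × (F.ζ × ℕ)) × (((Fin m → ℤ × ℤ) × (ℕ → ℕ → ℤ)) × (Fin (K + 3) → ℤ)))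
        (fun J F V z' g ω => ((z' (vg (b 0) J F ω), (vg (b 0) J F ω).2),
          (ctx c r₀ r K (b 0) (Ub - b 0) n J F V z' g ω,
            pth c r K (b 0) (Pv r (b 0) + q) J F V z' g ω))) e (ε * q) := by
  obtain ⟨δ, hδ, H⟩ := path_nsb K hh hh1 hε
  refine ⟨δ / 8, by positivity, ?_⟩
  intro m S C₀ htm c r₀ r b M Pv D n Ub ρ rk HM q g₀ rd N hq hp0 hg₀ hpq hrd hn1 hU1 hbq hN hNr
    hsum U₀ Qu α γ f y hf hy a e₁ hba ha he₁ hctx hraw
  have hb0 : b 0 ≤ b M := HM.bmono (Nat.zero_le M) le_rfl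
  have hδq : 0 < δ * q := by positivity
  have hρ := HM.ρ0
  have hyT : ∀ (J : ℕ) (F : Fam m J), ∃ φ : γ J F → ℕ, ∀ ω, F.T ω = φ (y J F ω) := by
    intro J F
    obtain ⟨φ, hφ⟩ := hy J F
    exact ⟨fun x => (φ x).1, fun ω => (congrArg Prod.fst (hφ ω)).symm⟩
  have e3 : b 0 + (Ub - b 0) = Ub := by ring
  have hem : 0 < min e₁ (ρ / 8) := lt_min he₁ (by linarith)
  obtain ⟨e₂, he₂, he₂1, HP⟩ := H htm HM.hr (a := a) (q := q) (w := b 0) (lam := Ub - b 0)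
    (n := n) (p := fun l => Pv l (b 0)) HM.b0 (hb0.trans hba) ha hq hbq
    (fun i x y => (hrd i x y).1) (Qu := Qu) hf hyT hem
    (fun e h1 h2 => (hctx e h1 (h2.trans (min_le_left _ _))).mono le_rfl (by linarith))
    (fun e h1 h2 => HM.valb htm hba ha hf hy (fun i x y => (hrd i x y).1) h1
      (h2.trans (min_le_right _ _)) hNr (hctx e h1 (h2.trans (min_le_left _ _))) (by linarith))
    (fun q' h1 h2 => by
      rw [e3]
      exact HM.nfc htm h1 h2 hp0 hg₀ hpq hrd hn1 hU1 hN hNr (hraw q' h1 h2) (by linarith))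
  exact ⟨e₂, he₂, he₂1.trans (min_le_left _ _), HP⟩

end Pool.AJW
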